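import Pool.Agent.Lib.MP_d31508_co.Shr.Stmts
import Pool.Agent.Lib.MP_d31508_co.Shq.Big

/-!
# Project SHR, module BigG: closed sets of size `m` in a large kernel of density `7/5`
-/

namespace Pool.Agent.Lib.MP_d31508_co.Shr

open Finset Classical
open Pool.Agent.Lib.MP_d31508_co.Asy (dg Cl D)
open Pool.Agent.Lib.MP_d31508_co.Sharp (Ker Hang kernel_exists dg_mono dg_union_disj D_union
  D_le_sq D_mono)
open Pool.Agent.Lib.MP_d31508_co.Shq (Flex)
open Pool.Agent.Lib.MP_d31508_co.Shq.Big (flex_extend D_sdiff_ge)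

namespace BigG

variable {V : Type} [Fintype V] {G : SimpleGraph V}

lemma arE {m Dw Wc S : ℕ} (hm : 5000000 ≤ m)
    (h5 : 2 * Dw ≤ 8 * m ^ 2 + 5 * Wc + 28800 + 4 * S) (hKW : 14 * Wc ≤ 5 * Dw)
    (hNZ : 200 * S ≤ Wc) (hW : 1000 * m ^ 2 ≤ Wc) : False := by
  have h7 : 400 ≤ m ^ 2 := by nlinarith
  omega

lemma arD {m Dw Dy U Wc S SY A R : ℕ} (hR : 4 * Dy + 2 * 5 * R ≤ 4 * A + 2 * 5 * U)
    (h1 : A ≤ (2 * m) * (2 * m)) (h2 : Dw ≤ Dy + 2 * SY) (h3 : SY ≤ 7200 + S) (h4 : U ≤ Wc) :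
    2 * Dw ≤ 8 * m ^ 2 + 5 * Wc + 28800 + 4 * S := by
  have h6 : (2 * m) * (2 * m) = 4 * m ^ 2 := by ring
  rw [h6] at h1
  omega

/-- the state of the iteration -/
structure St (G : SimpleGraph V) (W Y₀ Ah : Finset V) (c k : ℕ) where
  A : Finset V
  Z : Finset V
  w : ℕ
  cl : Cl G A
  sub : Ah ⊆ A
  AW : A ⊆ W
  ZW : Z ⊆ W
  dAY : Disjoint A Y₀
  dZY : Disjoint Z Y₀
  dAZ : Disjoint A Z
  hang : Hang G A Z
  flex : Flex G A (Y₀ ∪ Z) w
  card : A.card + Z.card ≤ Ah.card + k * c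
  win : 11 ^ k * 71 + 10 ^ k * 29 ≤ 10 ^ k * w

lemma win_ge {k w : ℕ} (h : 11 ^ k * 71 + 10 ^ k * 29 ≤ 10 ^ k * w) : 100 ≤ w := by
  have h1 : 10 ^ k ≤ 11 ^ k := Nat.pow_le_pow_left (by norm_num) k
  have h2 : 10 ^ k * 100 ≤ 10 ^ k * w := by nlinarith
  exact le_of_mul_le_mul_left h2 (by positivity)

lemma win_step {k w t : ℕ} (h : 11 ^ k * 71 + 10 ^ k * 29 ≤ 10 ^ k * w)
    (ht : w ≤ 10 * t + 29) :
    11 ^ (k + 1) * 71 + 10 ^ (k + 1) * 29 ≤ 10 ^ (k + 1) * (w + t) := by
  have hw := win_ge h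
  have h1 : 10 ^ k * w ≤ 10 ^ k * (10 * t + 29) := Nat.mul_le_mul_left _ ht
  have e1 : 11 ^ (k + 1) = 11 * 11 ^ k := by ring
  have e2 : 10 ^ (k + 1) = 10 * 10 ^ k := by ring
  rw [e1, e2]
  nlinarith

lemma win_end {ρ w : ℕ} (h : 11 ^ (8 * (Nat.log 2 ρ + 1)) * 71 +
    10 ^ (8 * (Nat.log 2 ρ + 1)) * 29 ≤ 10 ^ (8 * (Nat.log 2 ρ + 1)) * w) : 4 * ρ + 2 ≤ w := by
  set j := Nat.log 2 ρ + 1 with hj
  have h1 : ρ < 2 ^ j := Nat.lt_pow_succ_log_self (by norm_num) ρ
  have h2 : 2 ^ j * 10 ^ (8 * j) ≤ 11 ^ (8 * j) := by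
    rw [pow_mul, pow_mul, ← mul_pow]
    exact Nat.pow_le_pow_left (by norm_num) j
  have h3 : 10 ^ (8 * j) * (71 * ρ + 29) ≤ 10 ^ (8 * j) * w := by
    have h4 : ρ * 10 ^ (8 * j) ≤ 2 ^ j * 10 ^ (8 * j) := Nat.mul_le_mul_right _ h1.le
    nlinarith
  have h5 := le_of_mul_le_mul_left h3 (by positivity)
  omega

end BigG

open BigG in
theorem stBigG (hSel : StSelL) (hF : StFlexG) (hI : StIncG) : StBigG := by
  intro V _ G W m ρ hρ1 hK hadj hD hρ hm hW
  set l := Nat.log 2 ρ + 1 with hl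
  have hl1 : 1 ≤ l := by omega
  have hρl : ρ ≤ ρ * l := Nat.le_mul_of_pos_right _ hl1
  have hm5 : 10000000 * (ρ * l) ≤ m := by
    calc 10000000 * (ρ * l) = 10000000 * ρ * l := by ring
      _ ≤ m := hm
  have hm0 : 5000000 ≤ m := by nlinarith
  have hWb : 5000000 < W.card := by nlinarith
  have hWpos : 0 < W.card := by omega
  -- the first flexible vertices
  have hdeg : ∀ u ∈ W, 2 ≤ dg G W u := by
    intro u hu
    have h1 := hK {u} (singleton_subset_iff.2 hu) (singleton_nonempty u)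
    simp only [empty_union, card_singleton] at h1
    have h2 := D_sdiff_ge (G := G) (singleton_subset_iff.2 hu)
    rw [sum_singleton] at h2
    omega
  obtain ⟨Y₀, hY₀W, hY₀c, hY₀2, hY₀s⟩ := hSel V G W 100 hdeg hadj hD (by omega)
  obtain ⟨B₀, hB₀W, hB₀cl, hB₀Y, hB₀c⟩ := hF V G W Y₀ ρ hK hY₀W hY₀2 hρ
  have hB₀m : B₀.card ≤ 757400 * ρ := by
    set S := ∑ y ∈ Y₀, dg G W y
    have h1 : (14 * S + 2 * Y₀.card) * (4 * ρ + 3) ≤ 101000 * (7 * ρ) :=
      Nat.mul_le_mul (by omega) (by omega)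
    omega
  -- the hub set
  obtain ⟨Ah, hAh, hmax⟩ := exists_max_image
    (W.powerset.filter (fun A => B₀ ⊆ A ∧ Cl G A ∧ Disjoint A Y₀))
    (fun A => ((m * ∑ x ∈ A, dg G W x : ℕ) : ℤ) - ((12 * W.card * A.card : ℕ) : ℤ))
    ⟨B₀, by
      rw [mem_filter, mem_powerset]
      exact ⟨hB₀W.trans sdiff_subset, subset_rfl, hB₀cl,
        disjoint_of_subset_left hB₀W sdiff_disjoint⟩⟩
  rw [mem_filter, mem_powerset] at hAh
  obtain ⟨hAhW, hBAh, hAhcl, hAhY⟩ := hAh
  have hhub : ∀ A : Finset V, A ⊆ W → Ah ⊆ A → Cl G A → Disjoint A Y₀ →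
      m * ∑ x ∈ A \ Ah, dg G W x ≤ 12 * W.card * (A \ Ah).card := by
    intro A h1 h2 h3 h4
    have h5 := hmax A (by
      rw [mem_filter, mem_powerset]
      exact ⟨h1, hBAh.trans h2, h3, h4⟩)
    have h6 : ∑ x ∈ A, dg G W x = ∑ x ∈ A \ Ah, dg G W x + ∑ x ∈ Ah, dg G W x :=
      (sum_sdiff h2).symm
    have h7 : A.card = (A \ Ah).card + Ah.card := (card_sdiff_add_card_eq_card h2).symm
    rw [h6, h7] at h5
    have h8 : ((m * ∑ x ∈ A \ Ah, dg G W x : ℕ) : ℤ) ≤
        ((12 * W.card * (A \ Ah).card : ℕ) : ℤ) := by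
      push_cast at h5 ⊢
      linarith
    exact_mod_cast h8
  have hAhc : 2 * Ah.card ≤ m + 2 * B₀.card := by
    have h5 := hmax B₀ (by
      rw [mem_filter, mem_powerset]
      exact ⟨hB₀W.trans sdiff_subset, subset_rfl, hB₀cl,
        disjoint_of_subset_left hB₀W sdiff_disjoint⟩)
    have h6 : ∑ x ∈ Ah, dg G W x ≤ D G W := by
      unfold D
      exact sum_le_sum_of_subset hAhW
    have h7 : m * ∑ x ∈ Ah, dg G W x ≤ m * (6 * W.card) :=
      Nat.mul_le_mul_left _ (h6.trans hD)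
    have h8 : 12 * W.card * Ah.card ≤ m * ∑ x ∈ Ah, dg G W x + 12 * W.card * B₀.card := by
      have h9 : (0 : ℤ) ≤ ((m * ∑ x ∈ B₀, dg G W x : ℕ) : ℤ) := Int.natCast_nonneg _
      have h10 : ((12 * W.card * Ah.card : ℕ) : ℤ) ≤
          ((m * ∑ x ∈ Ah, dg G W x : ℕ) : ℤ) + ((12 * W.card * B₀.card : ℕ) : ℤ) := by
        linarith
      exact_mod_cast h10
    have h11 : (6 * W.card) * (2 * Ah.card) ≤ (6 * W.card) * (m + 2 * B₀.card) := by
      calc (6 * W.card) * (2 * Ah.card) = 12 * W.card * Ah.card := by ring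
        _ ≤ _ := h8
        _ ≤ m * (6 * W.card) + 12 * W.card * B₀.card := by omega
        _ = _ := by ring
    exact le_of_mul_le_mul_left h11 (by omega)
  -- the iteration
  have hbud : ∀ k ≤ 8 * l, k * (8 * ρ + 7) ≤ 120 * (ρ * l) := by
    intro k hk
    calc k * (8 * ρ + 7) ≤ (8 * l) * (15 * ρ) := Nat.mul_le_mul hk (by omega)
      _ = _ := by ring
  have hKW : 14 * W.card ≤ 5 * D G W := by
    have h1 := hK W subset_rfl (card_pos.1 hWpos)
    simp only [empty_union] at h1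
    omega
  have hstep : ∀ k ≤ 8 * l, ∀ s : St G W Y₀ Ah (8 * ρ + 7) k,
      (∃ S : Finset V, S.card = m ∧ Cl G S) ∨
      (s.w < 4 * ρ + 2 ∧ Nonempty (St G W Y₀ Ah (8 * ρ + 7) (k + 1))) := by
    intro k hk s
    have hb := hbud k hk
    have hYW : Y₀ ∪ s.Z ⊆ W := union_subset hY₀W s.ZW
    have hdAY : Disjoint s.A (Y₀ ∪ s.Z) := disjoint_union_right.2 ⟨s.dAY, s.dAZ⟩
    have hcard := s.card
    have hAm : s.A.card ≤ m := by omega
    -- the degree sum of the optional set
    have hAZ : m * ∑ x ∈ s.Z, dg G W x ≤ 12 * W.card * (120 * (ρ * l)) := by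
      have h1 := hhub (s.A ∪ s.Z) (union_subset s.AW s.ZW) (s.sub.trans subset_union_left)
        (s.hang.cl s.cl) (disjoint_union_left.2 ⟨s.dAY, s.dZY⟩)
      have h2 : s.Z ⊆ (s.A ∪ s.Z) \ Ah := by
        intro x hx
        rw [mem_sdiff]
        exact ⟨mem_union_right _ hx, fun h => disjoint_left.1 s.dAZ (s.sub h) hx⟩
      have h3 : m * ∑ x ∈ s.Z, dg G W x ≤ m * ∑ x ∈ (s.A ∪ s.Z) \ Ah, dg G W x :=
        Nat.mul_le_mul_left _ (sum_le_sum_of_subset h2)
      have h4 : ((s.A ∪ s.Z) \ Ah).card ≤ 120 * (ρ * l) := by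
        have h5 := card_sdiff_add_card_eq_card (s.sub.trans (subset_union_left (s₂ := s.Z)))
        have h6 := card_union_of_disjoint s.dAZ
        omega
      exact h3.trans (h1.trans (Nat.mul_le_mul_left _ h4))
    have hNZ : 200 * ∑ x ∈ s.Z, dg G W x ≤ W.card := by
      have h1 : m * (200 * ∑ x ∈ s.Z, dg G W x) ≤ m * W.card := by
        calc m * (200 * ∑ x ∈ s.Z, dg G W x)
            = 200 * (m * ∑ x ∈ s.Z, dg G W x) := by ring
          _ ≤ 200 * (12 * W.card * (120 * (ρ * l))) := Nat.mul_le_mul_left _ hAZ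
          _ = (288000 * (ρ * l)) * W.card := by ring
          _ ≤ (10000000 * (ρ * l)) * W.card := by
            apply Nat.mul_le_mul_right
            exact Nat.mul_le_mul_right _ (by norm_num)
          _ ≤ m * W.card := Nat.mul_le_mul_right _ hm5
      exact le_of_mul_le_mul_left h1 (by omega)
    set Y := Y₀ ∪ s.Z with hY
    set U := (W \ Y) \ s.A with hU
    obtain ⟨R, hRU, hR, hKR⟩ := kernel_exists (G := G) 5 4 s.A U
    have hAWY : s.A ⊆ W \ Y := fun x hx =>
      mem_sdiff.2 ⟨s.AW hx, fun h => disjoint_left.1 hdAY hx h⟩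
    have hAU : s.A ∪ U = W \ Y := union_sdiff_of_subset hAWY
    have hdAR : Disjoint s.A R := disjoint_of_subset_right hRU disjoint_sdiff
    have hRW : R ⊆ W := (hRU.trans sdiff_subset).trans sdiff_subset
    have hdRY : Disjoint R Y :=
      disjoint_of_subset_left (hRU.trans sdiff_subset) sdiff_disjoint
    have hRm : m < R.card := by
      by_contra hc
      push Not at hc
      have h1 : D G (s.A ∪ R) ≤ (2 * m) * (2 * m) := by
        refine (D_le_sq _).trans ?_
        have := card_union_le s.A R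
        exact Nat.mul_le_mul (by omega) (by omega)
      rw [hAU] at hR
      have h2 := D_sdiff_ge (G := G) hYW
      have h3 : ∑ y ∈ Y, dg G W y ≤ 7200 + ∑ x ∈ s.Z, dg G W x := by
        rw [hY, sum_union s.dZY.symm]
        omega
      have h4 : U.card ≤ W.card := card_le_card (sdiff_subset.trans sdiff_subset)
      exact arE hm0 (arD hR h1 h2 h3 h4) hKW hNZ hW
    rcases hI V G s.A R Y s.w m ρ hdAR hdAY hdRY hKR s.cl s.flex
      (by have := win_ge s.win; omega) hAm hRm hρ with h | ⟨hw, B, T, b1, b2, b3, b4, b5, b6, b7,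
        b8, b9⟩
    · exact Or.inl h
    · refine Or.inr ⟨hw, ⟨?_⟩⟩
      have hBY : Disjoint B Y :=
        disjoint_of_subset_left b2 (disjoint_union_left.2 ⟨hdAY, hdRY⟩)
      have hTY : Disjoint T Y := disjoint_of_subset_left b3 hdRY
      rw [hY, disjoint_union_right] at hBY hTY
      exact
        { A := B
          Z := s.Z ∪ T
          w := s.w + T.card
          cl := b5
          sub := s.sub.trans b1
          AW := b2.trans (union_subset s.AW hRW)
          ZW := union_subset s.ZW (b3.trans hRW)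
          dAY := hBY.1
          dZY := disjoint_union_left.2 ⟨s.dZY, hTY.1⟩
          dAZ := disjoint_union_right.2 ⟨hBY.2, b4⟩
          hang := (s.hang.mono b1).union b6
          flex := by
            rw [← union_assoc]
            exact flex_extend s.flex b1 b6 (disjoint_union_left.2 ⟨hTY.1.symm, hTY.2.symm⟩) b9
          card := by
            have := card_union_le s.Z T
            have e : (k + 1) * (8 * ρ + 7) = k * (8 * ρ + 7) + (8 * ρ + 7) := by ring
            omega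
          win := win_step s.win b8 }
  have hkey : ∀ k ≤ 8 * l, (∃ S : Finset V, S.card = m ∧ Cl G S) ∨
      Nonempty (St G W Y₀ Ah (8 * ρ + 7) k) := by
    intro k
    induction k with
    | zero =>
      intro _
      right
      refine ⟨?_⟩
      exact
        { A := Ah
          Z := ∅
          w := 100
          cl := hAhcl
          sub := subset_rfl
          AW := hAhW
          ZW := empty_subset _
          dAY := hAhY
          dZY := disjoint_empty_left _
          dAZ := disjoint_empty_right _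
          hang := Sharp.Hang_empty _
          flex := by
            intro t ht
            obtain ⟨Y', hY'Y, hY'c⟩ := exists_subset_card_eq (s := Y₀) (n := t) (by omega)
            refine ⟨Y', hY'Y.trans subset_union_left, hY'c, ?_⟩
            intro x hx
            exact (hB₀Y x (hY'Y hx)).trans (dg_mono (hBAh.trans subset_union_left) x)
          card := by simp
          win := by norm_num }
    | succ k ih =>
      intro hk
      rcases ih (by omega) with h | ⟨⟨s⟩⟩
      · exact Or.inl h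
      · rcases hstep k (by omega) s with h | ⟨-, h⟩
        · exact Or.inl h
        · exact Or.inr h
  rcases hkey (8 * l) le_rfl with h | ⟨⟨s⟩⟩
  · exact h
  · rcases hstep (8 * l) le_rfl s with h | ⟨h, -⟩
    · exact h
    · exfalso
      have := win_end s.win
      omega

end Pool.Agent.Lib.MP_d31508_co.Shr
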