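import Pool.Agent.Lib.MP_d31508_co.Shr.Stmts

/-!
# Module CutM of project SHR
-/

namespace Pool.Agent.Lib.MP_d31508_co.Shr

set_option linter.unusedSectionVars false

open Finset Classical
open Pool.Agent.Lib.MP_d31508_co.Asy (dg Cl D)
open Pool.Agent.Lib.MP_d31508_co.Sharp (Ker Hang dg_mono D_sub sum_dg_comm ker_sdiff two_le_dg
  one_le_dg)

namespace CutM

/-- balls of the search from the set `M` inside `Z` -/
noncomputable def mball {V : Type} (G : SimpleGraph V) (Z M : Finset V) : ℕ → Finset V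
  | 0 => M
  | t + 1 => mball G Z M t ∪ Z.filter (fun y => ∃ x ∈ mball G Z M t, G.Adj x y)

lemma mball_succ {V : Type} (G : SimpleGraph V) (Z M : Finset V) (t : ℕ) :
    mball G Z M (t + 1) =
      mball G Z M t ∪ Z.filter (fun y => ∃ x ∈ mball G Z M t, G.Adj x y) := rfl

lemma mball_mono {V : Type} (G : SimpleGraph V) (Z M : Finset V) {s t : ℕ} (h : s ≤ t) :
    mball G Z M s ⊆ mball G Z M t := by
  induction t, h using Nat.le_induction with
  | base => exact subset_rfl
  | succ t _ ih =>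
    rw [mball_succ]
    exact ih.trans subset_union_left

lemma mball_sub {V : Type} (G : SimpleGraph V) (Z M : Finset V) (t : ℕ) :
    mball G Z M t ⊆ M ∪ Z := by
  induction t with
  | zero => exact subset_union_left
  | succ t ih =>
    rw [mball_succ]
    exact union_subset ih ((filter_subset _ _).trans subset_union_right)

/-- the level -/
noncomputable def mlev {V : Type} (G : SimpleGraph V) (Z M : Finset V) (y : V) : ℕ :=
  if h : ∃ t, y ∈ mball G Z M t then Nat.find h else 0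

lemma mlev_mem {V : Type} {G : SimpleGraph V} {Z M : Finset V} {y : V}
    (h : ∃ t, y ∈ mball G Z M t) : y ∈ mball G Z M (mlev G Z M y) := by
  unfold mlev
  rw [dif_pos h]
  exact Nat.find_spec h

lemma mlev_le {V : Type} {G : SimpleGraph V} {Z M : Finset V} {y : V} {t : ℕ}
    (h : y ∈ mball G Z M t) : mlev G Z M y ≤ t := by
  unfold mlev
  rw [dif_pos ⟨t, h⟩]
  exact Nat.find_min' _ h

lemma mpred {V : Type} {G : SimpleGraph V} {Z M : Finset V} {y : V}
    (h : ∃ t, y ∈ mball G Z M t) (hy : y ∉ M) :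
    ∃ x, (x ∈ mball G Z M (mlev G Z M y - 1) ∧ G.Adj x y) ∧ mlev G Z M x + 1 =
      mlev G Z M y := by
  have h1 := mlev_mem h
  rcases Nat.eq_zero_or_pos (mlev G Z M y) with h0 | h0
  · rw [h0] at h1
    exact absurd h1 hy
  · obtain ⟨s, hs'⟩ : ∃ s, mlev G Z M y = s + 1 := ⟨mlev G Z M y - 1, by omega⟩
    rw [hs', mball_succ, mem_union, mem_filter] at h1
    have h2 : y ∉ mball G Z M s := by
      intro h3
      have := mlev_le h3
      omega
    obtain ⟨-, x, hx, hxy⟩ := h1.resolve_left h2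
    refine ⟨x, ⟨?_, hxy⟩, ?_⟩
    · rw [hs']; exact hx
    · have h3 := mlev_le hx
      by_contra hne
      have h4 : mlev G Z M x + 1 ≤ s := by omega
      have h5 := mlev_mem ⟨s, hx⟩
      have hyZ : y ∈ Z ∨ y ∈ mball G Z M s := by
        rcases h1 with h | h
        · exact Or.inr h
        · exact Or.inl h.1
      have h6 : y ∈ mball G Z M (mlev G Z M x + 1) := by
        rw [mball_succ, mem_union, mem_filter]
        exact Or.inr ⟨hyZ.resolve_right h2, x, h5, hxy⟩
      exact h2 (mball_mono G Z M h4 h6)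

/-- breadth first search from the set `M` inside `Z` -/
structure MB {V : Type} (G : SimpleGraph V) (Z M : Finset V) where
  C : Finset V
  lev : V → ℕ
  par : V → V
  root : M ⊆ C
  sub : C ⊆ M ∪ Z
  lev_root : ∀ x ∈ M, lev x = 0
  lev_zero : ∀ x ∈ C, lev x = 0 → x ∈ M
  par_mem : ∀ x ∈ C, x ∉ M → par x ∈ C
  par_lev : ∀ x ∈ C, x ∉ M → lev (par x) + 1 = lev x
  par_adj : ∀ x ∈ C, x ∉ M → G.Adj x (par x)
  nb : ∀ x ∈ C, ∀ y ∈ Z, G.Adj x y → y ∈ C ∧ lev y ≤ lev x + 1

theorem mb_exists {V : Type} (G : SimpleGraph V) (Z M : Finset V) : Nonempty (MB G Z M) := by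
  have hex : ∀ y : V, ∃ x : V, (∃ t, y ∈ mball G Z M t) → y ∉ M →
      (x ∈ mball G Z M (mlev G Z M y - 1) ∧ G.Adj x y) ∧ mlev G Z M x + 1 =
      mlev G Z M y := by
    intro y
    by_cases h : (∃ t, y ∈ mball G Z M t) ∧ y ∉ M
    · obtain ⟨x, hx⟩ := mpred h.1 h.2
      exact ⟨x, fun _ _ => hx⟩
    · exact ⟨y, fun h1 h2 => absurd ⟨h1, h2⟩ h⟩
  choose par hpar using hex
  have hmem : ∀ y, y ∈ (M ∪ Z).filter (fun y => ∃ t, y ∈ mball G Z M t) ↔
      ∃ t, y ∈ mball G Z M t := by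
    intro y
    rw [mem_filter]
    exact ⟨fun h => h.2, fun h => ⟨mball_sub G Z M _ h.choose_spec, h⟩⟩
  refine ⟨{ C := (M ∪ Z).filter (fun y => ∃ t, y ∈ mball G Z M t)
            lev := mlev G Z M
            par := par
            root := fun x hx => (hmem x).2 ⟨0, hx⟩
            sub := filter_subset _ _
            lev_root := fun x hx => Nat.le_zero.1 (mlev_le (t := 0) hx)
            lev_zero := ?_
            par_mem := ?_
            par_lev := ?_
            par_adj := ?_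
            nb := ?_ }⟩
  · intro x hx h0
    have := mlev_mem ((hmem x).1 hx)
    rw [h0] at this
    exact this
  · intro x hx hxz
    exact (hmem _).2 ⟨_, (hpar x ((hmem x).1 hx) hxz).1.1⟩
  · intro x hx hxz
    exact (hpar x ((hmem x).1 hx) hxz).2
  · intro x hx hxz
    exact (hpar x ((hmem x).1 hx) hxz).1.2.symm
  · intro x hx y hy hxy
    have h1 := mlev_mem ((hmem x).1 hx)
    have h2 : y ∈ mball G Z M (mlev G Z M x + 1) := by
      rw [mball_succ, mem_union, mem_filter]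
      exact Or.inr ⟨hy, x, h1, hxy⟩
    exact ⟨(hmem y).2 ⟨_, h2⟩, mlev_le h2⟩

variable {V : Type} [Fintype V] {G : SimpleGraph V} {Z M : Finset V}

/-- the branch of `x` without its root -/
noncomputable def br (T : MB G Z M) (x : V) : Finset V :=
  (range (T.lev x)).image (fun i => T.par^[i] x)

lemma br_iter (T : MB G Z M) {x : V} (hx : x ∈ T.C) (i : ℕ) (hi : i ≤ T.lev x) :
    T.par^[i] x ∈ T.C ∧ T.lev (T.par^[i] x) + i = T.lev x := by
  induction i with
  | zero => exact ⟨hx, rfl⟩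
  | succ i ih =>
    obtain ⟨h1, h2⟩ := ih (by omega)
    rw [Function.iterate_succ_apply']
    have hne : T.par^[i] x ∉ M := by
      intro h
      rw [T.lev_root _ h] at h2
      omega
    refine ⟨T.par_mem _ h1 hne, ?_⟩
    have := T.par_lev _ h1 hne
    omega

lemma mem_br (T : MB G Z M) {x y : V} : y ∈ br T x ↔ ∃ i < T.lev x, T.par^[i] x = y := by
  simp [br]

lemma br_sub (T : MB G Z M) {x y : V} (hx : x ∈ T.C) (hy : y ∈ br T x) :
    y ∈ T.C ∧ y ∉ M ∧ T.lev y ≤ T.lev x := by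
  obtain ⟨i, hi, rfl⟩ := (mem_br T).1 hy
  obtain ⟨h1, h2⟩ := br_iter T hx i (by omega)
  refine ⟨h1, ?_, by omega⟩
  intro h
  rw [T.lev_root _ h] at h2
  omega

lemma br_card (T : MB G Z M) (x : V) : (br T x).card ≤ T.lev x := by
  unfold br
  exact card_image_le.trans (by simp)

lemma br_self (T : MB G Z M) {x : V} (h : 1 ≤ T.lev x) : x ∈ br T x :=
  (mem_br T).2 ⟨0, by omega, rfl⟩

lemma br_par (T : MB G Z M) {x y : V} (hx : x ∈ T.C) (hy : y ∈ br T x) :
    T.par y ∈ br T x ∨ T.par y ∈ M := by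
  obtain ⟨i, hi, rfl⟩ := (mem_br T).1 hy
  by_cases h : i + 1 < T.lev x
  · exact Or.inl ((mem_br T).2 ⟨i + 1, h, by rw [Function.iterate_succ_apply']⟩)
  · right
    obtain ⟨h1, h2⟩ := br_iter T hx (i + 1) (by omega)
    rw [Function.iterate_succ_apply'] at h1 h2
    exact T.lev_zero _ h1 (by omega)

lemma br_child (T : MB G Z M) {x y : V} (hx : x ∈ T.C) (hy : y ∈ br T x)
    (hyx : y ≠ x) : ∃ c ∈ br T x, T.lev c = T.lev y + 1 ∧ G.Adj y c := by
  obtain ⟨i, hi, rfl⟩ := (mem_br T).1 hy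
  have hi0 : i ≠ 0 := by
    intro h
    apply hyx
    rw [h]
    rfl
  obtain ⟨j, rfl⟩ : ∃ j, i = j + 1 := ⟨i - 1, by omega⟩
  obtain ⟨h1, h2⟩ := br_iter T hx j (by omega)
  obtain ⟨h3, h4⟩ := br_iter T hx (j + 1) (by omega)
  have hne : T.par^[j] x ∉ M := by
    intro h
    rw [T.lev_root _ h] at h2
    omega
  refine ⟨T.par^[j] x, (mem_br T).2 ⟨j, by omega, rfl⟩, by omega, ?_⟩
  have := T.par_adj _ h1 hne
  rw [Function.iterate_succ_apply']
  exact this.symm

lemma br_inner (T : MB G Z M) {x y : V} {X : Finset V} (hx : x ∈ T.C) (hX : br T x ⊆ X)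
    (hM : M ⊆ X) (hy : y ∈ br T x) (hyx : y ≠ x) : 2 ≤ dg G X y := by
  obtain ⟨c, hc1, hc2, hc3⟩ := br_child T hx hy hyx
  obtain ⟨hyC, hyM, -⟩ := br_sub T hx hy
  have hp := T.par_lev y hyC hyM
  have hpX : T.par y ∈ X := by
    rcases br_par T hx hy with h | h
    · exact hX h
    · exact hM h
  refine two_le_dg hpX (hX hc1) ?_ (T.par_adj y hyC hyM) hc3
  intro h
  rw [h] at hp
  omega

lemma br_lev_lt (T : MB G Z M) {x y : V} (hx : x ∈ T.C) (hy : y ∈ br T x) (hyx : y ≠ x) :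
    T.lev y < T.lev x := by
  obtain ⟨c, hc1, hc2, hc3⟩ := br_child T hx hy hyx
  have := (br_sub T hx hc1).2.2
  omega

lemma br_last (T : MB G Z M) {x : V} (hx : x ∈ T.C) (h : 1 ≤ T.lev x) :
    ∃ y ∈ br T x, ∃ s ∈ M, G.Adj s y := by
  obtain ⟨h1, h2⟩ := br_iter T hx (T.lev x - 1) (by omega)
  have hmem : T.par^[T.lev x - 1] x ∈ br T x := (mem_br T).2 ⟨_, by omega, rfl⟩
  obtain ⟨h3, h4, -⟩ := br_sub T hx hmem
  refine ⟨_, hmem, T.par (T.par^[T.lev x - 1] x), ?_, (T.par_adj _ h3 h4).symm⟩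
  have h5 := T.par_lev _ h3 h4
  exact T.lev_zero _ (T.par_mem _ h3 h4) (by omega)

/-- events -/
def Ev (T : MB G Z M) (A Q : Finset V) (x : V) : Prop :=
  x ∈ T.C ∧ x ∉ M ∧
    ((∃ z ∈ A ∪ (Q \ M), G.Adj x z) ∨
      ∃ y ∈ T.C, ∃ y' ∈ T.C, y ≠ y' ∧ G.Adj x y ∧ G.Adj x y' ∧ T.lev y ≤ T.lev x ∧
        T.lev y' ≤ T.lev x)

/-- the balls of the tree -/
noncomputable def Bl (T : MB G Z M) (i : ℕ) : Finset V := T.C.filter (fun x => T.lev x ≤ i)

lemma mem_Bl (T : MB G Z M) (i : ℕ) (x : V) : x ∈ Bl T i ↔ x ∈ T.C ∧ T.lev x ≤ i := by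
  simp [Bl]

lemma Bl_mono (T : MB G Z M) (i : ℕ) : Bl T i ⊆ Bl T (i + 1) := by
  intro x hx
  rw [mem_Bl] at hx ⊢
  exact ⟨hx.1, by omega⟩

/-- without events the parent is the only neighbour of level at most the own level -/
lemma unique (T : MB G Z M) {A Q : Finset V} {ρ : ℕ}
    (hno : ∀ x, Ev T A Q x → T.lev x ≤ ρ → False)
    {x y : V} (hx : x ∈ T.C) (hxb : x ∉ M) (hxl : T.lev x ≤ ρ) (hy : y ∈ T.C)
    (hxy : G.Adj x y) (hyl : T.lev y ≤ T.lev x) : y = T.par x := by
  by_contra hne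
  have hpl := T.par_lev x hx hxb
  exact hno x ⟨hx, hxb, Or.inr ⟨y, hy, T.par x, T.par_mem x hx hxb, hne, hxy,
    T.par_adj x hx hxb, hyl, by omega⟩⟩ hxl

lemma dg_le_one {X : Finset V} {x p : V} (h : ∀ y ∈ X, G.Adj x y → y = p) : dg G X x ≤ 1 := by
  unfold dg
  rw [card_le_one]
  intro y hy z hz
  rw [mem_filter] at hy hz
  rw [h y hy.1 hy.2, h z hz.1 hz.2]

lemma dg_zero {X : Finset V} {x : V} (h : ∀ y ∈ X, ¬ G.Adj x y) : dg G X x = 0 := by
  unfold dg
  rw [card_eq_zero, filter_eq_empty_iff]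
  intro y hy
  exact h y hy

/-- existence of an event -/
lemma exists_ev (T : MB G Z M) {A R Q : Finset V} {q ρ : ℕ}
    (hZ : Z = R \ Q) (hAR : Disjoint A R) (hK : Ker G (q + 1) q A R) (hQR : Q ⊆ R)
    (hMQ : M ⊆ Q) (hMc : q + 1 ≤ M.card) (hDM : D G M + 2 ≤ 2 * M.card)
    (hN2 : ∑ x ∈ M, dg G ((A ∪ Q) \ M) x ≤ 2)
    (hV : Fintype.card V * q ^ ρ < (q + 1) ^ ρ) :
    ∃ x, Ev T A Q x ∧ T.lev x ≤ ρ := by
  by_contra hcon
  push Not at hcon
  have hno : ∀ x, Ev T A Q x → T.lev x ≤ ρ → False := by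
    intro x h1 h2
    have := hcon x h1
    omega
  have hZR : M ∪ Z ⊆ R := by
    rw [hZ]
    exact union_subset (hMQ.trans hQR) sdiff_subset
  -- one step of the ball
  have hlow : ∀ i, i < ρ → ∀ y ∈ Bl T (i + 1) \ Bl T i, dg G (Bl T i) y ≤ 1 := by
    intro i hi y hy
    rw [mem_sdiff, mem_Bl, mem_Bl] at hy
    obtain ⟨⟨hyC, hyl⟩, hyn⟩ := hy
    have hyl' : T.lev y = i + 1 := by
      by_contra h
      exact hyn ⟨hyC, by omega⟩
    refine dg_le_one (p := T.par y) ?_
    intro z hz hyz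
    rw [mem_Bl] at hz
    refine unique T hno hyC ?_ (by omega) hz.1 hyz (by omega)
    intro h
    rw [T.lev_root y h] at hyl'
    omega
  have hsame : ∀ i, i < ρ → D G (Bl T (i + 1) \ Bl T i) = 0 := by
    intro i hi
    unfold D
    apply sum_eq_zero
    intro y hy
    apply dg_zero
    intro z hz hyz
    rw [mem_sdiff, mem_Bl, mem_Bl] at hy hz
    obtain ⟨⟨hyC, hyl⟩, hyn⟩ := hy
    obtain ⟨⟨hzC, hzl⟩, hzn⟩ := hz
    have hyl' : T.lev y = i + 1 := by
      by_contra h
      exact hyn ⟨hyC, by omega⟩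
    have hzl' : T.lev z = i + 1 := by
      by_contra h
      exact hzn ⟨hzC, by omega⟩
    have hyb : y ∉ M := by
      intro h
      rw [T.lev_root y h] at hyl'
      omega
    have h1 := unique T hno hyC hyb (by omega) hzC hyz (by omega)
    have h2 := T.par_lev y hyC hyb
    rw [← h1] at h2
    omega
  have hsum : ∀ i, i < ρ → ∑ y ∈ Bl T (i + 1) \ Bl T i, dg G (Bl T i) y ≤
      (Bl T (i + 1) \ Bl T i).card := by
    intro i hi
    calc ∑ y ∈ Bl T (i + 1) \ Bl T i, dg G (Bl T i) y ≤ ∑ _y ∈ Bl T (i + 1) \ Bl T i, 1 :=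
          sum_le_sum (hlow i hi)
      _ = _ := by simp
  have hcard : ∀ i, (Bl T (i + 1) \ Bl T i).card + (Bl T i).card = (Bl T (i + 1)).card :=
    fun i => card_sdiff_add_card_eq_card (Bl_mono T i)
  have hBl0 : Bl T 0 = M := by
    ext x
    rw [mem_Bl]
    constructor
    · rintro ⟨h1, h2⟩
      exact T.lev_zero x h1 (by omega)
    · intro h
      exact ⟨T.root h, by rw [T.lev_root x h]⟩
  have hD : ∀ i, i ≤ ρ → D G (Bl T i) + 2 ≤ 2 * (Bl T i).card := by
    intro i
    induction i with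
    | zero =>
      intro _
      rw [hBl0]
      exact hDM
    | succ i ih =>
      intro hi
      have h1 := ih (by omega)
      have h2 := D_sub (G := G) (Bl_mono T i)
      have h3 := hsame i (by omega)
      have h4 := hsum i (by omega)
      have h5 := hcard i
      omega
  set N : Finset V := (A ∪ Q) \ M with hN
  have hMne : M.Nonempty := card_pos.1 (by omega)
  -- the main inequality
  have hmain : ∀ i, i < ρ → (q + 1) * (Bl T i).card ≤ q * ((Bl T (i + 1)).card + 1) := by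
    intro i hi
    have hSR : Bl T i ⊆ R := by
      intro x hx
      rw [mem_Bl] at hx
      exact hZR (T.sub hx.1)
    have hSn : (Bl T i).Nonempty := by
      obtain ⟨m, hm⟩ := hMne
      exact ⟨m, (mem_Bl T i m).2 ⟨T.root hm, by rw [T.lev_root m hm]; omega⟩⟩
    have h1 := ker_sdiff hK hAR hSR hSn
    rw [sum_dg_comm] at h1
    have h2 : ∀ x ∈ Bl T i, dg G (A ∪ (R \ Bl T i)) x ≤
        dg G (Bl T (i + 1) \ Bl T i) x + dg G N x := by
      intro x hx
      have hx' := (mem_Bl T i x).mp hx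
      have hsub : (A ∪ (R \ Bl T i)).filter (fun y => G.Adj x y) ⊆
          (Bl T (i + 1) \ Bl T i).filter (fun y => G.Adj x y) ∪
            N.filter (fun y => G.Adj x y) := by
        intro y hy
        rw [mem_filter, mem_union, mem_sdiff] at hy
        obtain ⟨hy, hxy⟩ := hy
        by_cases hyN : y ∈ N
        · exact mem_union_right _ (mem_filter.mpr ⟨hyN, hxy⟩)
        refine mem_union_left _ (mem_filter.mpr ⟨?_, hxy⟩)
        rcases hy with hyA | ⟨hyR, hyB⟩
        · exfalso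
          apply hyN
          rw [hN, mem_sdiff]
          exact ⟨mem_union_left _ hyA, fun h => disjoint_left.mp hAR hyA (hQR (hMQ h))⟩
        have hyM : y ∉ M := by
          intro h
          exact hyB ((mem_Bl T i y).2 ⟨T.root h, by rw [T.lev_root y h]; omega⟩)
        have hyZ : y ∈ Z := by
          rw [hZ, mem_sdiff]
          refine ⟨hyR, fun h => hyN ?_⟩
          rw [hN, mem_sdiff]
          exact ⟨mem_union_right _ h, hyM⟩
        obtain ⟨h3, h4⟩ := T.nb x hx'.1 y hyZ hxy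
        exact mem_sdiff.mpr ⟨(mem_Bl T _ y).mpr ⟨h3, by omega⟩, hyB⟩
      have := (card_le_card hsub).trans (card_union_le _ _)
      unfold dg
      exact this
    have h3 : ∑ x ∈ Bl T i, dg G N x ≤ 2 := by
      have h4 : ∑ x ∈ Bl T i, dg G N x ≤ ∑ x ∈ M, dg G N x := by
        apply sum_le_sum_of_ne_zero
        intro x hx hx0
        rw [mem_Bl] at hx
        by_contra hxn
        apply hx0
        apply dg_zero
        intro y hy hxy
        refine hno x ⟨hx.1, hxn, Or.inl ⟨y, ?_, hxy⟩⟩ (by omega)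
        rw [hN, mem_sdiff, mem_union] at hy
        rw [mem_union, mem_sdiff]
        rcases hy.1 with h | h
        · exact Or.inl h
        · exact Or.inr ⟨h, hy.2⟩
      exact h4.trans hN2
    have h4 : ∑ x ∈ Bl T i, dg G (A ∪ (R \ Bl T i)) x ≤ (Bl T (i + 1) \ Bl T i).card + 2 := by
      calc ∑ x ∈ Bl T i, dg G (A ∪ (R \ Bl T i)) x
          ≤ ∑ x ∈ Bl T i, (dg G (Bl T (i + 1) \ Bl T i) x + dg G N x) := sum_le_sum h2
        _ = ∑ x ∈ Bl T i, dg G (Bl T (i + 1) \ Bl T i) x + ∑ x ∈ Bl T i, dg G N x :=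
            sum_add_distrib
        _ = ∑ y ∈ Bl T (i + 1) \ Bl T i, dg G (Bl T i) y + ∑ x ∈ Bl T i, dg G N x := by
            rw [sum_dg_comm]
        _ ≤ _ := add_le_add (hsum i hi) h3
    have h5 := hD i (by omega)
    have h6 := hcard i
    have h7 : D G (Bl T i) + 2 * ∑ y ∈ Bl T i, dg G (A ∪ (R \ Bl T i)) y ≤
        2 * ((Bl T (i + 1)).card + 1) := by omega
    have h8 : q * (D G (Bl T i) + 2 * ∑ y ∈ Bl T i, dg G (A ∪ (R \ Bl T i)) y) ≤
        q * (2 * ((Bl T (i + 1)).card + 1)) := Nat.mul_le_mul_left _ h7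
    have h9 := h1.trans h8
    have e1 : 2 * (q + 1) * (Bl T i).card = 2 * ((q + 1) * (Bl T i).card) := by ring
    have e2 : q * (2 * ((Bl T (i + 1)).card + 1)) = 2 * (q * ((Bl T (i + 1)).card + 1)) := by
      ring
    rw [e1, e2] at h9
    exact Nat.le_of_mul_le_mul_left h9 (by norm_num)
  -- growth
  have hgrow : ∀ i, i ≤ ρ → (q + 1) ^ i + q ^ i * q ≤ q ^ i * (Bl T i).card := by
    intro i
    induction i with
    | zero =>
      intro _
      rw [hBl0]
      simp only [pow_zero, one_mul]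
      omega
    | succ i ih =>
      intro hi
      have h1 := ih (by omega)
      have h2 := hmain i (by omega)
      have h3 : q ^ i * ((q + 1) * (Bl T i).card) ≤ q ^ i * (q * ((Bl T (i + 1)).card + 1)) :=
        Nat.mul_le_mul_left _ h2
      have h4 : (q + 1) * ((q + 1) ^ i + q ^ i * q) ≤ (q + 1) * (q ^ i * (Bl T i).card) :=
        Nat.mul_le_mul_left _ h1
      have e1 : (q + 1) ^ (i + 1) = (q + 1) * (q + 1) ^ i := by ring
      have e2 : q ^ (i + 1) = q * q ^ i := by ring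
      rw [e1, e2]
      nlinarith [h3, h4]
  have h1 := hgrow ρ le_rfl
  have h2 : (Bl T ρ).card ≤ Fintype.card V := card_le_univ _
  have h3 : q ^ ρ * (Bl T ρ).card ≤ q ^ ρ * Fintype.card V := Nat.mul_le_mul_left _ h2
  have h4 : Fintype.card V * q ^ ρ = q ^ ρ * Fintype.card V := Nat.mul_comm _ _
  omega

end CutM

open CutM in
/-- module CutM -/
theorem stCutM : StCutM := by
  intro V _ G A R Q M q ρ hq hAR hK hQR hHang hMQ hMc hDM hN2 hV
  obtain ⟨T⟩ := mb_exists G (R \ Q) M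
  have hex := exists_ev T rfl hAR hK hQR hMQ hMc hDM hN2 hV
  -- an event of minimal level
  obtain ⟨x, hx, hxl, hmin⟩ : ∃ x, Ev T A Q x ∧ T.lev x ≤ ρ ∧
      ∀ y, Ev T A Q y → T.lev x ≤ T.lev y := by
    have hex' : ∃ l, ∃ x, Ev T A Q x ∧ T.lev x = l := by
      obtain ⟨x, hx, -⟩ := hex
      exact ⟨_, x, hx, rfl⟩
    obtain ⟨x, hx, hxl⟩ := Nat.find_spec hex'
    refine ⟨x, hx, ?_, ?_⟩
    · obtain ⟨y, hy, hyl⟩ := hex
      have := Nat.find_min' hex' ⟨y, hy, rfl⟩
      omega
    · intro y hy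
      have := Nat.find_min' hex' ⟨y, hy, rfl⟩
      omega
  obtain ⟨hxC, hxM, hkind⟩ := hx
  have hx1 : 1 ≤ T.lev x := by
    by_contra h
    exact hxM (T.lev_zero x hxC (by omega))
  have hCsub : ∀ y ∈ T.C, y ∉ M → y ∈ R \ Q := by
    intro y hy hyM
    rcases mem_union.mp (T.sub hy) with h | h
    · exact absurd h hyM
    · exact h
  have hMX : ∀ E : Finset V, M ⊆ A ∪ (Q ∪ E) := fun E y hy =>
    mem_union_right _ (mem_union_left _ (hMQ hy))
  have hEX : ∀ E : Finset V, E ⊆ A ∪ (Q ∪ E) := fun E y hy =>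
    mem_union_right _ (mem_union_right _ hy)
  -- minimality
  have hfree : ∀ y ∈ T.C, y ∉ M → T.lev y < T.lev x → ∀ z ∈ Q \ M, ¬ G.Adj y z := by
    intro y hy hyM hlt z hz hyz
    have := hmin y ⟨hy, hyM, Or.inl ⟨z, mem_union_right _ hz, hyz⟩⟩
    omega
  obtain ⟨y₀, hy₀, s₀, hs₀, hadj₀⟩ := br_last T hxC hx1
  -- third conclusion
  have hthird : ∀ E : Finset V, br T x ⊆ E → ∃ m ∈ M, 1 ≤ dg G E m :=
    fun E hE => ⟨s₀, hs₀, one_le_dg (hE hy₀) hadj₀⟩
  have hQhang : ∀ E : Finset V, ∀ y ∈ Q, 2 ≤ dg G (A ∪ (Q ∪ E)) y := by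
    intro E y hy
    exact (hHang y hy).trans (dg_mono (union_subset_union_right subset_union_left) y)
  have hparX : ∀ (E : Finset V) (v : V), v ∈ T.C → 1 ≤ T.lev v → br T v ⊆ E →
      T.par v ∈ A ∪ (Q ∪ E) := by
    intro E v hv hv1 hE
    rcases br_par T hv (br_self T hv1) with h | h
    · exact hEX E (hE h)
    · exact hMX E h
  rcases hkind with ⟨z, hz, hxz⟩ | ⟨y₁, hy₁, y₂, hy₂, hne, hxy₁, hxy₂, hl₁, hl₂⟩
  · -- first kind
    refine ⟨br T x, ?_, ?_, ?_, hthird _ (subset_refl _), x, x, ?_⟩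
    · intro y hy
      obtain ⟨h1, h2, -⟩ := br_sub T hxC hy
      exact hCsub y h1 h2
    · have := br_card T x
      omega
    · intro v hv
      rcases mem_union.mp hv with hv | hv
      · exact hQhang _ v hv
      by_cases hvx : v = x
      · subst hvx
        have hzX : z ∈ A ∪ (Q ∪ br T v) := by
          rcases mem_union.mp hz with h | h
          · exact mem_union_left _ h
          · exact mem_union_right _ (mem_union_left _ (mem_sdiff.mp h).1)
        refine two_le_dg (hparX _ v hxC hx1 (subset_refl _)) hzX ?_ (T.par_adj v hxC hxM) hxz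
        intro h
        have hpC := T.par_mem v hxC hxM
        rw [h] at hpC
        rcases mem_union.mp hz with h' | h'
        · by_cases hzM : z ∈ M
          · exact disjoint_left.mp hAR h' (hQR (hMQ hzM))
          · exact disjoint_left.mp hAR h' (mem_sdiff.mp (hCsub z hpC hzM)).1
        · rw [mem_sdiff] at h'
          exact (mem_sdiff.mp (hCsub z hpC h'.2)).2 h'.1
      · exact br_inner T hxC (hEX _) (hMX _) hv hvx
    · intro y hy hyx _
      obtain ⟨h1, h2, -⟩ := br_sub T hxC hy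
      exact hfree y h1 h2 (br_lev_lt T hxC hy hyx)
  · -- second kind
    obtain ⟨x', hx'C, hx'p, hxx', hx'l⟩ : ∃ x' ∈ T.C, x' ≠ T.par x ∧ G.Adj x x' ∧
        T.lev x' ≤ T.lev x := by
      by_cases h : y₁ = T.par x
      · exact ⟨y₂, hy₂, fun h' => hne (h.trans h'.symm), hxy₂, hl₂⟩
      · exact ⟨y₁, hy₁, h, hxy₁, hl₁⟩
    have hE1 : br T x ⊆ br T x ∪ br T x' := subset_union_left
    have hE2 : br T x' ⊆ br T x ∪ br T x' := subset_union_right
    have hx'X : x' ∈ A ∪ (Q ∪ (br T x ∪ br T x')) := by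
      by_cases h : x' ∈ M
      · exact hMX _ h
      · have h1 : 1 ≤ T.lev x' := by
          by_contra h'
          exact h (T.lev_zero x' hx'C (by omega))
        exact hEX _ (hE2 (br_self T h1))
    have hxX : x ∈ A ∪ (Q ∪ (br T x ∪ br T x')) := hEX _ (hE1 (br_self T hx1))
    refine ⟨br T x ∪ br T x', ?_, ?_, ?_, hthird _ hE1, x, x', ?_⟩
    · intro y hy
      rcases mem_union.mp hy with hy | hy
      · obtain ⟨h1, h2, -⟩ := br_sub T hxC hy
        exact hCsub y h1 h2
      · obtain ⟨h1, h2, -⟩ := br_sub T hx'C hy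
        exact hCsub y h1 h2
    · have h1 := br_card T x
      have h2 := br_card T x'
      have h3 := card_union_le (br T x) (br T x')
      omega
    · intro v hv
      rcases mem_union.mp hv with hv | hv
      · exact hQhang _ v hv
      have hvM : v ∉ M := by
        rcases mem_union.mp hv with hv | hv
        · exact (br_sub T hxC hv).2.1
        · exact (br_sub T hx'C hv).2.1
      by_cases hvx : v = x
      · subst hvx
        exact two_le_dg (hparX _ v hxC hx1 hE1) hx'X (fun h => hx'p h.symm)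
          (T.par_adj v hxC hxM) hxx'
      by_cases hvx' : v = x'
      · subst hvx'
        have h1 : 1 ≤ T.lev v := by
          by_contra h'
          exact hvM (T.lev_zero v hx'C (by omega))
        refine two_le_dg (hparX _ v hx'C h1 hE2) hxX ?_ (T.par_adj v hx'C hvM) hxx'.symm
        intro h
        have := T.par_lev v hx'C hvM
        rw [h] at this
        omega
      rcases mem_union.mp hv with hv | hv
      · exact br_inner T hxC (hE1.trans (hEX _)) (hMX _) hv hvx
      · exact br_inner T hx'C (hE2.trans (hEX _)) (hMX _) hv hvx'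
    · intro y hy hyx hyx'
      rcases mem_union.mp hy with hy | hy
      · obtain ⟨h1, h2, -⟩ := br_sub T hxC hy
        exact hfree y h1 h2 (br_lev_lt T hxC hy hyx)
      · obtain ⟨h1, h2, -⟩ := br_sub T hx'C hy
        have := br_lev_lt T hx'C hy hyx'
        exact hfree y h1 h2 (by omega)

end Pool.Agent.Lib.MP_d31508_co.Shr
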