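import Pool.Agent.Lib.MP_d31508_co.Shr.Stmts

/-!
# Project SHR, module Ext: the extension of the exact upper bound to large `n`
-/

set_option linter.unusedSectionVars false

namespace Pool.Agent.Lib.MP_d31508_co.Shr

open Finset Classical
open Pool.Agent.Lib.MP_d31508_co.Asy (dg Cl D)
open Pool.Agent.Lib.MP_d31508_co.Sharp (Ker Hang kernel_exists dg_mono dg_union_disj D_union
  D_le_sq D_mono)
open Pool.Agent.Lib.MP_d31508_co.Shp (StThin)

namespace Ext

variable {V : Type} [Fintype V] {G : SimpleGraph V}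

lemma D_sdiff_eq {W Z : Finset V} (hZ : Z ⊆ W) :
    D G W + D G Z = D G (W \ Z) + 2 * ∑ y ∈ Z, dg G W y := by
  have h1 : D G W = D G (W \ Z) + D G Z + 2 * ∑ y ∈ Z, dg G (W \ Z) y := by
    conv_lhs => rw [← sdiff_union_of_subset hZ]
    exact D_union sdiff_disjoint
  have h2 : ∑ y ∈ Z, dg G W y = ∑ y ∈ Z, dg G (W \ Z) y + D G Z := by
    unfold D
    rw [← sum_add_distrib]
    apply sum_congr rfl
    intro y _
    rw [← dg_union_disj sdiff_disjoint, sdiff_union_of_subset hZ]
  omega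

lemma D_pair {u v : V} (h : G.Adj u v) : D G {u, v} = 2 := by
  have hne : u ≠ v := h.ne
  unfold D
  rw [sum_pair hne]
  have h1 : dg G {u, v} u = 1 := by
    unfold dg
    rw [card_eq_one]
    refine ⟨v, ?_⟩
    ext y
    simp only [mem_filter, mem_insert, mem_singleton]
    constructor
    · rintro ⟨rfl | rfl, h2⟩
      · exact absurd h2 (G.irrefl)
      · rfl
    · rintro rfl
      exact ⟨Or.inr rfl, h⟩
  have h2 : dg G {u, v} v = 1 := by
    unfold dg
    rw [card_eq_one]
    refine ⟨u, ?_⟩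
    ext y
    simp only [mem_filter, mem_insert, mem_singleton]
    constructor
    · rintro ⟨rfl | rfl, h2⟩
      · rfl
      · exact absurd h2 (G.irrefl)
    · rintro rfl
      exact ⟨Or.inl rfl, h.symm⟩
  omega

lemma adj_of_D {W : Finset V} {u v : V} (hu : u ∈ W) (hv : v ∈ W) (h : G.Adj u v)
    (hD : D G (W \ {u, v}) + 6 < D G W) : 5 ≤ dg G W u + dg G W v := by
  have hZ : ({u, v} : Finset V) ⊆ W := by
    intro x hx
    rw [mem_insert, mem_singleton] at hx
    rcases hx with rfl | rfl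
    · exact hu
    · exact hv
  have h1 := D_sdiff_eq (G := G) hZ
  rw [D_pair h, sum_pair h.ne] at h1
  omega

lemma dg_le_of_le {G' : SimpleGraph V} (h : G' ≤ G) (X : Finset V) (x : V) :
    dg G' X x ≤ dg G X x := by
  unfold dg
  apply card_le_card
  intro y hy
  rw [mem_filter] at hy ⊢
  exact ⟨hy.1, h hy.2⟩

lemma sq_le {a b : ℕ} (h : a ^ 20 ≤ b * b) : a ^ 10 ≤ b := by
  by_contra hc
  push Not at hc
  have h1 : b * b < a ^ 10 * a ^ 10 := Nat.mul_self_lt_mul_self hc
  rw [← pow_add] at h1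
  norm_num at h1
  omega

end Ext

open Ext in
theorem stExt (hT : StThin) (hB : StBigG) : StExt := by
  intro V _ G m c ρ hm hc hρ1 hno hsmall hρ hm7
  have hm0 : 1000 ≤ m := by
    have h1 : 0 < ρ * (Nat.log 2 ρ + 1) := Nat.mul_pos (by omega) (by omega)
    have h2 : 10000000 * ρ * (Nat.log 2 ρ + 1) = 10000000 * (ρ * (Nat.log 2 ρ + 1)) := by ring
    omega
  have hpow : ∀ a b : ℕ, m ^ (a + (b + 1)) ≥ 1000 * m ^ a := by
    intro a b
    rw [pow_add, mul_comm]
    apply Nat.mul_le_mul_right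
    calc 1000 ≤ m := hm0
      _ = m * 1 := by ring
      _ ≤ m * m ^ b := Nat.mul_le_mul_left _ (Nat.one_le_pow _ _ (by omega))
      _ = m ^ (b + 1) := by ring
  have h10 : 1000 * m ^ 2 ≤ m ^ 10 := hpow 2 7
  have h20 : 1000 * m ^ 10 ≤ m ^ 20 := hpow 10 9
  have h60 : 1000 * m ^ 40 ≤ m ^ 60 := hpow 40 19
  have h40 : m ^ 20 * m ^ 20 = m ^ 40 := by rw [← pow_add]
  have h402 : 1000 * m ^ 20 ≤ m ^ 40 := hpow 20 19
  have hm2 : 1 ≤ m ^ 2 := Nat.one_le_pow _ _ (by omega)
  -- no dense sets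
  have hthin : ∀ W : Finset V, m ^ 20 ≤ W.card → D G W ≤ 6 * W.card := by
    intro W hW
    by_contra hD
    push Not at hD
    obtain ⟨R, hRW, hR, hK⟩ := kernel_exists (G := G) 8 5 ∅ W
    simp only [empty_union] at hR
    have h2 : D G R ≤ R.card * R.card := D_le_sq _
    have h3 : m ^ 10 ≤ R.card := sq_le (by omega)
    obtain ⟨G', hG', hK', hD'⟩ := hT V G R 8 5 (by norm_num) hK
    have hK7 : Ker G' 7 5 ∅ R := by
      intro Z hZ hZn
      have := hK' Z hZ hZn
      omega
    have hadj : ∀ u ∈ R, ∀ v ∈ R, G'.Adj u v → 5 ≤ dg G' R u + dg G' R v := by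
      intro u hu v hv huv
      apply adj_of_D hu hv huv
      have hZ : ({u, v} : Finset V) ⊆ R := by
        intro x hx
        rw [mem_insert, mem_singleton] at hx
        rcases hx with rfl | rfl
        · exact hu
        · exact hv
      have h4 := hK' {u, v} hZ ⟨u, mem_insert_self _ _⟩
      simp only [empty_union] at h4
      rw [card_pair huv.ne] at h4
      omega
    obtain ⟨S, hS, hcl⟩ := hB V G' R m ρ hρ1 hK7 hadj (by omega) hρ hm7 (by omega)
    exact hno S hS (fun x hx => (hcl x hx).trans (dg_le_of_le hG' _ _))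
  by_contra hcon
  push Not at hcon
  obtain ⟨W₁, hW₁, hW₁'⟩ := hcon
  obtain ⟨W, hW, hmin⟩ := exists_min_image
    (univ.filter (fun W : Finset V => m ^ 20 ≤ W.card ∧ 3 * W.card ≤ D G W + c)) card
    ⟨W₁, by
      rw [mem_filter]
      exact ⟨mem_univ _, hW₁, hW₁'⟩⟩
  rw [mem_filter] at hW
  obtain ⟨-, hWc, hWD⟩ := hW
  have hbig : m ^ 60 < W.card := by
    by_contra hc
    push Not at hc
    have := hsmall W hWc hc
    omega
  have hstrict : ∀ Z ⊆ W, Z.Nonempty → m ^ 20 ≤ (W \ Z).card →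
      D G (W \ Z) + 3 * Z.card < D G W := by
    intro Z hZ hZn hZc
    by_contra hc
    push Not at hc
    have h1 := card_sdiff_add_card_eq_card hZ
    have h2 := card_pos.2 hZn
    have h3 := hmin (W \ Z) (by
      rw [mem_filter]
      exact ⟨mem_univ _, hZc, by omega⟩)
    omega
  have hK : Ker G 7 5 ∅ W := by
    intro Z hZ hZn
    simp only [empty_union]
    rcases le_or_gt (m ^ 20) (W \ Z).card with h1 | h1
    · have := hstrict Z hZ hZn h1
      omega
    · have h2 : D G (W \ Z) ≤ (W \ Z).card * (W \ Z).card := D_le_sq _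
      have h3 : (W \ Z).card * (W \ Z).card ≤ m ^ 20 * m ^ 20 := Nat.mul_le_mul h1.le h1.le
      have h4 := card_le_card hZ
      omega
  have hadj : ∀ u ∈ W, ∀ v ∈ W, G.Adj u v → 5 ≤ dg G W u + dg G W v := by
    intro u hu v hv huv
    apply adj_of_D hu hv huv
    have hZ : ({u, v} : Finset V) ⊆ W := by
      intro x hx
      rw [mem_insert, mem_singleton] at hx
      rcases hx with rfl | rfl
      · exact hu
      · exact hv
    have h1 := card_sdiff_add_card_eq_card hZ
    have h4 := hstrict {u, v} hZ ⟨u, mem_insert_self _ _⟩ (by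
      rw [card_pair huv.ne] at h1
      omega)
    rw [card_pair huv.ne] at h4
    omega
  obtain ⟨S, hS, hcl⟩ := hB V G W m ρ hρ1 hK hadj (hthin W hWc) hρ hm7 (by omega)
  exact hno S hS hcl

end Pool.Agent.Lib.MP_d31508_co.Shr
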