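import Pool.Agent.Lib.MP_d31508_co.Shr.Stmts

/-!
# Module FlexG: a small closed set in which all vertices of `Y` have two neighbours, density `7/5`
(after `Shp.FlexB` of helper18)
-/

set_option autoImplicit false
set_option linter.unusedSectionVars false

namespace Pool.Agent.Lib.MP_d31508_co.Shr

open Finset Classical
open Pool.Agent.Lib.MP_d31508_co.Asy (dg Cl D HasP f)
open Pool.Agent.Lib.MP_d31508_co.Sharp

namespace FlexG

variable {V : Type} [Fintype V] {G : SimpleGraph V}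

/-- The part of `W \ Y` outside the denser kernel is small. -/
lemma small_rest {W Y W' : Finset V}
    (hker : Ker G 7 5 ∅ W) (hY : Y ⊆ W) (hW' : W' ⊆ W \ Y)
    (hD : 4 * D G (W \ Y) + 10 * W'.card ≤ 4 * D G W' + 10 * (W \ Y).card) :
    ((W \ Y) \ W').card ≤ 7 * ∑ y ∈ Y, dg G W y := by
  set R0 := (W \ Y) \ W' with hR0
  rcases R0.eq_empty_or_nonempty with h | hne
  · rw [h]; simp
  have hRW : R0 ⊆ W := sdiff_subset.trans sdiff_subset
  have hcard : R0.card + W'.card = (W \ Y).card := card_sdiff_add_card_eq_card hW'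
  have hdYR : Disjoint Y R0 := by
    rw [disjoint_left]
    intro x hx hx2
    exact (mem_sdiff.1 (mem_sdiff.1 hx2).1).2 hx
  have h1 := hker (Y ∪ R0) (union_subset hY hRW) (hne.mono subset_union_right)
  rw [empty_union, empty_union, card_union_of_disjoint hdYR] at h1
  have hsplit : W \ (Y ∪ R0) = W' := by
    ext x
    simp only [hR0, mem_sdiff, mem_union]
    constructor
    · rintro ⟨hx, hx2⟩
      by_contra hxW
      exact hx2 (by
        by_cases hxY : x ∈ Y
        · exact Or.inl hxY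
        · exact Or.inr ⟨⟨hx, hxY⟩, hxW⟩)
    · intro hx
      refine ⟨(mem_sdiff.1 (hW' hx)).1, ?_⟩
      rintro (h | h)
      · exact (mem_sdiff.1 (hW' hx)).2 h
      · exact h.2 hx
  rw [hsplit] at h1
  have h2 := D_sub (G := G) (sdiff_subset : W \ Y ⊆ W)
  rw [Finset.sdiff_sdiff_eq_self hY] at h2
  have h3 : ∑ y ∈ Y, dg G W y = ∑ y ∈ Y, dg G (W \ Y) y + ∑ y ∈ Y, dg G Y y := by
    rw [← sum_add_distrib]
    refine sum_congr rfl fun x _ => ?_
    rw [← dg_union_disj sdiff_disjoint, sdiff_union_of_subset hY]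
  have h4 : D G Y = ∑ y ∈ Y, dg G Y y := rfl
  omega

end FlexG

open FlexG in
theorem stFlexG : StFlexG := by
  intro V _ G W Y r hker hY hdeg hr
  obtain ⟨W', hW', hD, hker'⟩ := kernel_exists (G := G) 5 4 ∅ (W \ Y)
  rw [empty_union, empty_union] at hD
  have hR := small_rest hker hY hW' (by omega)
  set R0 := (W \ Y) \ W' with hR0
  have hsel : ∀ u ∈ W, ∃ a b : V, a ∈ W \ Y ∧ b ∈ W \ Y ∧ a ≠ b ∧ G.Adj u a ∧ G.Adj u b := by
    intro u hu
    obtain ⟨a, ha, b, hb, h1, h2, h3⟩ := two_le_dg_iff.1 (hdeg u hu)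
    exact ⟨a, b, ha, hb, h1, h2, h3⟩
  choose! n1 n2 hn using hsel
  have hcov := cover (q := 4) hker' (disjoint_empty_left W') hr
  choose! E hE using hcov
  set T := ((R0 ∪ Y).image n1 ∪ (R0 ∪ Y).image n2) ∩ W' with hT
  have hTcard : T.card ≤ 2 * (R0.card + Y.card) := by
    calc T.card ≤ ((R0 ∪ Y).image n1 ∪ (R0 ∪ Y).image n2).card := card_le_card inter_subset_left
      _ ≤ ((R0 ∪ Y).image n1).card + ((R0 ∪ Y).image n2).card := card_union_le _ _
      _ ≤ (R0 ∪ Y).card + (R0 ∪ Y).card := Nat.add_le_add card_image_le card_image_le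
      _ ≤ _ := by have := card_union_le R0 Y; omega
  set B := R0 ∪ T.biUnion E with hB
  have hmem : ∀ u ∈ R0 ∪ Y, n1 u ∈ B ∧ n2 u ∈ B := by
    intro u hu
    have huW : u ∈ W := by
      rcases mem_union.1 hu with h | h
      · exact (mem_sdiff.1 (mem_sdiff.1 h).1).1
      · exact hY h
    obtain ⟨ha, hb, -, -, -⟩ := hn u huW
    have key : ∀ a, a ∈ W \ Y → a ∈ (R0 ∪ Y).image n1 ∪ (R0 ∪ Y).image n2 → a ∈ B := by
      intro a ha hai
      by_cases haW : a ∈ W'
      · have haT : a ∈ T := mem_inter.2 ⟨hai, haW⟩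
        exact mem_union_right _ (mem_biUnion.2 ⟨a, haT, (hE a haW).2.1⟩)
      · exact mem_union_left _ (mem_sdiff.2 ⟨ha, haW⟩)
    exact ⟨key _ ha (mem_union_left _ (mem_image_of_mem n1 hu)),
      key _ hb (mem_union_right _ (mem_image_of_mem n2 hu))⟩
  refine ⟨B, ?_, ?_, ?_, ?_⟩
  · refine union_subset sdiff_subset ?_
    intro x hx
    obtain ⟨v, hv, hxv⟩ := mem_biUnion.1 hx
    exact hW' ((hE v (mem_inter.1 hv).2).1 hxv)
  · intro x hx
    rcases mem_union.1 hx with h | h
    · have huW : x ∈ W := (mem_sdiff.1 (mem_sdiff.1 h).1).1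
      obtain ⟨m1, m2⟩ := hmem x (mem_union_left _ h)
      obtain ⟨-, -, hne, a1, a2⟩ := hn x huW
      exact two_le_dg m1 m2 hne a1 a2
    · obtain ⟨v, hv, hxv⟩ := mem_biUnion.1 h
      have h1 := (hE v (mem_inter.1 hv).2).2.2.2 x hxv
      rw [empty_union] at h1
      exact h1.trans (dg_mono ((subset_biUnion_of_mem E hv).trans subset_union_right) x)
  · intro y hy
    obtain ⟨m1, m2⟩ := hmem y (mem_union_right _ hy)
    obtain ⟨-, -, hne, a1, a2⟩ := hn y (hY hy)
    exact two_le_dg m1 m2 hne a1 a2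
  · calc B.card ≤ R0.card + (T.biUnion E).card := card_union_le _ _
      _ ≤ R0.card + T.card * (4 * r + 3) := by
        apply Nat.add_le_add_left
        exact card_biUnion_le_card_mul _ _ _ fun v hv => (hE v (mem_inter.1 hv).2).2.2.1
      _ ≤ 7 * (∑ y ∈ Y, dg G W y) +
          (2 * (7 * (∑ y ∈ Y, dg G W y) + Y.card)) * (4 * r + 3) := by
        apply Nat.add_le_add hR
        apply Nat.mul_le_mul_right
        exact hTcard.trans (Nat.mul_le_mul_left 2 (Nat.add_le_add_right hR _))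
      _ = _ := by ring

end Pool.Agent.Lib.MP_d31508_co.Shr
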