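import Pool.Agent.Lib.MP_d31508_co.Shr.Stmts

/-!
# Project SHR, module IncG: enlarging the window (density `5/4`)
-/

namespace Pool.Agent.Lib.MP_d31508_co.Shr

open Finset Classical
open Pool.Agent.Lib.MP_d31508_co.Asy (dg Cl D)
open Pool.Agent.Lib.MP_d31508_co.Sharp (Ker Hang cover dg_mono)

theorem stIncG (hS : StSuspG) (hP : StPieceG) : StIncG := by
  intro V _ G A R Y w m ρ hAR hAY hRY hK hA hFl hw hAm hRm hρ
  obtain ⟨Ah, hAh, hmax⟩ := exists_max_image
    ((A ∪ R).powerset.filter (fun X => A ⊆ X ∧ Cl G X ∧ X.card ≤ m)) card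
    ⟨A, by
      rw [mem_filter, mem_powerset]
      exact ⟨subset_union_left, subset_rfl, hA, hAm⟩⟩
  rw [mem_filter, mem_powerset] at hAh
  obtain ⟨hAhR, hAAh, hAhc, hAhm⟩ := hAh
  by_cases hgap : m ≤ Ah.card + w
  · left
    obtain ⟨Y', hY'Y, hY'c, hY'h⟩ := hFl (m - Ah.card) (by omega)
    have hd : Disjoint Ah Y' :=
      disjoint_of_subset_left hAhR (disjoint_of_subset_right hY'Y
        (disjoint_union_left.2 ⟨hAY, hRY⟩))
    refine ⟨Ah ∪ Y', ?_, (hY'h.mono hAAh).cl hAhc⟩
    rw [card_union_of_disjoint hd]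
    omega
  · right
    push Not at hgap
    have hstuck : ∀ X : Finset V, X ⊆ R \ Ah → X.Nonempty → Hang G Ah X → w + 2 ≤ X.card := by
      intro X hX hXn hXh
      by_contra hc
      push Not at hc
      have hd : Disjoint Ah X := disjoint_of_subset_right hX disjoint_sdiff
      have hc1 : (Ah ∪ X).card = Ah.card + X.card := card_union_of_disjoint hd
      have hpos := card_pos.2 hXn
      have := hmax (Ah ∪ X) (by
        rw [mem_filter, mem_powerset]
        refine ⟨union_subset hAhR ((hX.trans sdiff_subset).trans subset_union_right),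
          hAAh.trans subset_union_left, hXh.cl hAhc, by omega⟩)
      omega
    have hv : ∃ v ∈ R, v ∉ Ah := by
      by_contra hc
      push Not at hc
      have := card_le_card (show R ⊆ Ah from hc)
      omega
    have hw2 : w < 4 * ρ + 2 := by
      obtain ⟨v, hvR, hvA⟩ := hv
      obtain ⟨E, hER, hvE, hEc, hEh⟩ := cover (q := 4) hK hAR hρ v hvR
      have hEh' : Hang G Ah (E \ Ah) := by
        intro x hx
        refine (hEh x (mem_sdiff.1 hx).1).trans (dg_mono ?_ x)
        intro y hy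
        rcases mem_union.1 hy with hy | hy
        · exact mem_union_left _ (hAAh hy)
        · by_cases hyA : y ∈ Ah
          · exact mem_union_left _ hyA
          · exact mem_union_right _ (mem_sdiff.2 ⟨hy, hyA⟩)
      have h1 := hstuck (E \ Ah) (sdiff_subset_sdiff hER subset_rfl)
        ⟨v, mem_sdiff.2 ⟨hvE, hvA⟩⟩ hEh'
      have h2 := card_le_card (sdiff_subset (s := E) (t := Ah))
      omega
    refine ⟨hw2, ?_⟩
    obtain ⟨Q, t, hQR, hQc, hQh, ht1, ht2, ht3, ht4⟩ := hS V G A R Ah w 4 ρ (by norm_num) hAR hK hAAh hv hρ hstuck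
    obtain ⟨B, T, h1, h2, h3, h4, h5, h6, h7, h8, h9⟩ := hP V G A R Q t (w / 2) 4 ρ (by norm_num) hAR hK hA hQR
      hQh (by omega) ht1 ht2 ht3 ht4 hρ
    exact ⟨B, T, h1, h2, h3, h4, h5, h6, by omega, by omega, by omega⟩

end Pool.Agent.Lib.MP_d31508_co.Shr
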