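import Pool.Agent.Lib.MP_d31508_co.Shr.Stmts
import Pool.Agent.Lib.MP_d31508_co.Shq.Piece

/-!
# Module PieceG of project SHR
-/

namespace Pool.Agent.Lib.MP_d31508_co.Shr

set_option linter.unusedSectionVars false
set_option linter.unusedVariables false

open Finset Classical
open Pool.Agent.Lib.MP_d31508_co.Asy (dg Cl D)
open Pool.Agent.Lib.MP_d31508_co.Sharp (Ker Hang dg_mono dg_union_disj one_le_dg one_le_dg_iff
  two_le_dg Hang_empty)
open Pool.Agent.Lib.MP_d31508_co.Shq.Piece (gap nbr)

namespace PieceG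

variable {V : Type} [Fintype V] {G : SimpleGraph V}

/-- a path vertex is adjacent to a later one only if it is the next one -/
lemma adj_succ {A Q : Finset V} {t : ℕ → V} {l : ℕ}
    (ht : ∀ i < l, t i ∈ Q ∧ dg G (A ∪ Q) (t i) = 2)
    (hinj : ∀ i < l, ∀ j < l, t i = t j → i = j)
    (hadj : ∀ i, i + 1 < l → G.Adj (t i) (t (i + 1)))
    {i j : ℕ} (hij : i < j) (hj : j < l) (hne : 0 < i ∨ j + 1 < l)
    (hG : G.Adj (t i) (t j)) : j = i + 1 := by
  by_cases h0 : 0 < i
  · rcases nbr ht hinj hadj h0 (by omega) (mem_union_right _ (ht _ hj).1) hG with h | h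
    · have := hinj _ hj _ (by omega) h
      omega
    · exact hinj _ hj _ (by omega) h
  · have hj1 : j + 1 < l := by omega
    rcases nbr ht hinj hadj (i := j) (by omega) hj1
      (mem_union_right _ (ht i (by omega)).1) hG.symm with h | h
    · have := hinj _ (by omega) _ (by omega) h
      omega
    · have := hinj _ (by omega) _ (by omega) h
      omega

lemma sum_ends (f : ℕ → ℕ) (q c : ℕ) (hq : 1 ≤ q) (h0 : f 0 ≤ 1) (h1 : f q ≤ 1)
    (hm : ∀ i, 0 < i → i < q → f i ≤ c) : ∑ i ∈ range (q + 1), f i ≤ 2 + (q - 1) * c := by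
  obtain ⟨p, rfl⟩ : ∃ p, q = p + 1 := ⟨q - 1, by omega⟩
  rw [sum_range_succ, sum_range_succ']
  have : ∑ i ∈ range p, f (i + 1) ≤ p * c := by
    calc ∑ i ∈ range p, f (i + 1) ≤ ∑ _i ∈ range p, c :=
          sum_le_sum (fun i hi => hm _ (by omega) (by rw [mem_range] at hi; omega))
      _ = p * c := by simp
  rw [Nat.add_sub_cancel]
  omega

lemma facts {U : Finset V} {t : ℕ → V} {q : ℕ} (hq : 1 ≤ q)
    (hinj : ∀ i ≤ q, ∀ j ≤ q, t i = t j → i = j)
    (hadj : ∀ i < q, G.Adj (t i) (t (i + 1)))
    (hno : ∀ i j, i < j → j ≤ q → G.Adj (t i) (t j) → j = i + 1)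
    (hd : ∀ i ≤ q, dg G U (t i) = 2) (hU : ∀ i ≤ q, t i ∈ U) :
    ((range (q + 1)).image t).card = q + 1 ∧
    D G ((range (q + 1)).image t) + 2 ≤ 2 * ((range (q + 1)).image t).card ∧
    ∑ x ∈ (range (q + 1)).image t, dg G (U \ (range (q + 1)).image t) x ≤ 2 := by
  have hinjOn : Set.InjOn t (range (q + 1) : Finset ℕ) := by
    intro a ha b hb hab
    simp only [coe_range, Set.mem_Iio] at ha hb
    exact hinj _ (by omega) _ (by omega) hab
  have hcard : ((range (q + 1)).image t).card = q + 1 := by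
    rw [card_image_of_injOn hinjOn, card_range]
  set M : Finset V := (range (q + 1)).image t with hM
  have hMm : ∀ i ≤ q, t i ∈ M := fun i hi => mem_image_of_mem t (mem_range.2 (by omega))
  have hMU : M ⊆ U := by
    intro x hx
    obtain ⟨i, hi, rfl⟩ := mem_image.1 hx
    exact hU i (by rw [mem_range] at hi; omega)
  have hsum : ∀ i ≤ q, dg G M (t i) + dg G (U \ M) (t i) = 2 := by
    intro i hi
    rw [← dg_union_disj disjoint_sdiff, union_sdiff_of_subset hMU]
    exact hd i hi
  have hnb : ∀ i ≤ q, ∀ y ∈ M, G.Adj (t i) y → (i < q ∧ y = t (i + 1)) ∨ (0 < i ∧ y = t (i - 1)) := by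
    intro i hi y hy hG
    obtain ⟨j, hj, rfl⟩ := mem_image.1 hy
    rw [mem_range] at hj
    rcases Nat.lt_trichotomy i j with h | h | h
    · have := hno i j h (by omega) hG
      subst this
      exact Or.inl ⟨by omega, rfl⟩
    · subst h
      exact absurd hG (G.loopless.irrefl _)
    · have := hno j i h hi hG.symm
      subst this
      exact Or.inr ⟨by omega, by simp⟩
  have h0 : dg G M (t 0) ≤ 1 := by
    unfold dg
    apply card_le_one.2
    have hall : ∀ z ∈ M.filter (fun w => G.Adj (t 0) w), z = t 1 := by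
      intro z hz
      rw [mem_filter] at hz
      rcases hnb 0 (by omega) z hz.1 hz.2 with h | h
      · exact h.2
      · omega
    intro a ha b hb
    rw [hall a ha, hall b hb]
  have h1 : dg G M (t q) ≤ 1 := by
    unfold dg
    apply card_le_one.2
    have hall : ∀ z ∈ M.filter (fun w => G.Adj (t q) w), z = t (q - 1) := by
      intro z hz
      rw [mem_filter] at hz
      rcases hnb q le_rfl z hz.1 hz.2 with h | h
      · omega
      · exact h.2
    intro a ha b hb
    rw [hall a ha, hall b hb]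
  have h0' : 1 ≤ dg G M (t 0) := one_le_dg (hMm 1 hq) (hadj 0 (by omega))
  have h1' : 1 ≤ dg G M (t q) := by
    have := hadj (q - 1) (by omega)
    rw [show q - 1 + 1 = q by omega] at this
    exact one_le_dg (hMm (q - 1) (by omega)) this.symm
  have hmid : ∀ i, 0 < i → i < q → 2 ≤ dg G M (t i) := by
    intro i hi0 hiq
    have ha1 := hadj (i - 1) (by omega)
    rw [show i - 1 + 1 = i by omega] at ha1
    refine two_le_dg (hMm (i - 1) (by omega)) (hMm (i + 1) (by omega)) ?_ ha1.symm (hadj i hiq)
    intro h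
    have := hinj _ (by omega) _ (by omega) h
    omega
  refine ⟨hcard, ?_, ?_⟩
  · rw [hcard]
    unfold D
    rw [hM, sum_image hinjOn, ← hM]
    have := sum_ends (fun i => dg G M (t i)) q 2 hq h0 h1 (fun i hi0 hiq => by
      have := hsum i hiq.le
      show dg G M (t i) ≤ 2
      omega)
    omega
  · have e : ∑ x ∈ M, dg G (U \ M) x = ∑ i ∈ range (q + 1), dg G (U \ M) (t i) := by
      conv_lhs => rw [hM]
      rw [sum_image hinjOn]
    rw [e]
    have hs0 := hsum 0 (by omega)
    have hs1 := hsum q le_rfl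
    have := sum_ends (fun i => dg G (U \ M) (t i)) q 0 hq (by show dg G (U \ M) (t 0) ≤ 1; omega)
      (by show dg G (U \ M) (t q) ≤ 1; omega) (fun i hi0 hiq => by
      have h1 := hsum i hiq.le
      have h2 := hmid i hi0 hiq
      show dg G (U \ M) (t i) ≤ 0
      omega)
    omega

/-- the second half: the sets `B` and `T` -/
lemma build {A R Q E : Finset V} {t : ℕ → V} {l q : ℕ} (hAR : Disjoint A R) (hA : Cl G A)
    (hQ : Q ⊆ R) (hE : E ⊆ R \ Q) (hQE : Hang G A (Q ∪ E))
    (ht : ∀ i < l, t i ∈ Q ∧ dg G (A ∪ Q) (t i) = 2)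
    (hinj : ∀ i < l, ∀ j < l, t i = t j → i = j)
    (hadj : ∀ i, i + 1 < l → G.Adj (t i) (t (i + 1)))
    {u v : ℕ} (hu : u < q + 1) (hv : v < l) (hvl : l ≤ v + (q + 1)) (hl : 2 * q + 7 ≤ l)
    (hPu : 1 ≤ dg G E (t u)) (hPv : 1 ≤ dg G E (t v))
    (hfew : ((Ioo u v).filter (fun i => 1 ≤ dg G E (t i))).card ≤ 4)
    (huv : u < v) :
    ∃ B T : Finset V, A ⊆ B ∧ B ⊆ A ∪ R ∧ T ⊆ R ∧ Disjoint B T ∧ Cl G B ∧ Hang G B T ∧
    B.card + T.card ≤ A.card + Q.card + E.card ∧ l ≤ 5 * T.card + (2 * q + 6) ∧ T.card ≤ l := by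
  obtain ⟨i, i', h1, h2, h3, h4, h5, h6⟩ := gap (fun i => 1 ≤ dg G E (t i)) ((l - (2 * q + 7)) / 5) 4 u v
    (by omega) hPu hPv (by convert hfew) (by omega)
  have hdisj : Disjoint (A ∪ Q) E := by
    rw [disjoint_left]
    intro x hx hxE
    have := mem_sdiff.1 (hE hxE)
    rcases mem_union.1 hx with hx | hx
    · exact disjoint_left.1 hAR hx this.1
    · exact this.2 hx
  have hER : E ⊆ R := fun x hx => (mem_sdiff.1 (hE hx)).1
  have hsplit : ∀ x, dg G (A ∪ (Q ∪ E)) x = dg G (A ∪ Q) x + dg G E x := by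
    intro x
    rw [← union_assoc]
    exact dg_union_disj hdisj x
  have hClQ : Cl G (A ∪ (Q ∪ E)) := hQE.cl hA
  set T : Finset V := (Ioo i i').image t with hT
  have hTQ : T ⊆ Q := by
    intro x hx
    obtain ⟨j, hj, rfl⟩ := mem_image.1 hx
    rw [mem_Ioo] at hj
    exact (ht j (by omega)).1
  have hTcard : T.card = i' - i - 1 := by
    rw [hT, card_image_of_injOn, Nat.card_Ioo]
    intro a ha b hb hab
    simp only [coe_Ioo, Set.mem_Ioo] at ha hb
    exact hinj _ (by omega) _ (by omega) hab
  set B : Finset V := (A ∪ (Q ∪ E)) \ T with hB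
  have hTsub : T ⊆ A ∪ (Q ∪ E) := fun x hx => mem_union_right _ (mem_union_left _ (hTQ hx))
  have hBT : B ∪ T = A ∪ (Q ∪ E) := sdiff_union_of_subset hTsub
  have hBTd : Disjoint B T := sdiff_disjoint
  -- neighbours of vertices of `T`
  have hTn : ∀ j, i < j → j < i' → ∀ y ∈ A ∪ (Q ∪ E), G.Adj (t j) y →
      y = t (j - 1) ∨ y = t (j + 1) := by
    intro j hj1 hj2 y hy hG
    rw [← union_assoc] at hy
    rcases mem_union.1 hy with hy | hy
    · exact nbr ht hinj hadj (by omega) (by omega) hy hG
    · exact absurd (one_le_dg hy hG) (h6 j hj1 hj2)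
  refine ⟨B, T, ?_, ?_, hTQ.trans hQ, hBTd, ?_, ?_, ?_, ?_, ?_⟩
  · intro x hx
    rw [hB, mem_sdiff]
    exact ⟨mem_union_left _ hx, fun h => disjoint_left.1 hAR hx (hQ (hTQ h))⟩
  · intro x hx
    rw [hB, mem_sdiff, mem_union, mem_union] at hx
    rcases hx.1 with h | h | h
    · exact mem_union_left _ h
    · exact mem_union_right _ (hQ h)
    · exact mem_union_right _ (hER h)
  · intro y hy
    have hyT : y ∉ T := disjoint_left.1 hBTd hy
    have hyU : y ∈ A ∪ (Q ∪ E) := (mem_sdiff.1 hy).1
    have hsum : dg G (A ∪ (Q ∪ E)) y = dg G B y + dg G T y := by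
      rw [← hBT]
      exact dg_union_disj hBTd y
    have hy2 := hClQ y hyU
    by_cases h0 : dg G T y = 0
    · omega
    · obtain ⟨z, hz, hyz⟩ := one_le_dg_iff.1 (Nat.one_le_iff_ne_zero.2 h0)
      obtain ⟨j, hj, rfl⟩ := mem_image.1 hz
      rw [mem_Ioo] at hj
      have key : y = t i ∨ y = t i' := by
        rcases hTn j hj.1 hj.2 y hyU hyz.symm with h | h
        · left
          by_cases hji : j - 1 = i
          · rw [← hji]; exact h
          · exfalso
            apply hyT
            rw [h]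
            exact mem_image_of_mem t (mem_Ioo.2 ⟨by omega, by omega⟩)
        · right
          by_cases hji : j + 1 = i'
          · rw [← hji]; exact h
          · exfalso
            apply hyT
            rw [h]
            exact mem_image_of_mem t (mem_Ioo.2 ⟨by omega, by omega⟩)
      rcases key with rfl | rfl
      · -- `y = t i`
        have hd : dg G T (t i) ≤ 1 := by
          unfold dg
          apply card_le_one.2
          have hone : ∀ z ∈ T.filter (fun w => G.Adj (t i) w), z = t (i + 1) := by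
            intro z hz
            rw [mem_filter] at hz
            obtain ⟨hz1, hz2⟩ := hz
            obtain ⟨k, hk, rfl⟩ := mem_image.1 hz1
            rw [mem_Ioo] at hk
            rcases hTn k hk.1 hk.2 (t i) hyU hz2.symm with h | h
            · have := hinj _ (by omega) _ (by omega) h
              rw [show k = i + 1 by omega]
            · have := hinj _ (by omega) _ (by omega) h
              omega
          intro a ha b hb
          rw [hone a ha, hone b hb]
        have hdeg := hsplit (t i)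
        rw [(ht i (by omega)).2] at hdeg
        omega
      · have hd : dg G T (t i') ≤ 1 := by
          unfold dg
          apply card_le_one.2
          have hone : ∀ z ∈ T.filter (fun w => G.Adj (t i') w), z = t (i' - 1) := by
            intro z hz
            rw [mem_filter] at hz
            obtain ⟨hz1, hz2⟩ := hz
            obtain ⟨k, hk, rfl⟩ := mem_image.1 hz1
            rw [mem_Ioo] at hk
            rcases hTn k hk.1 hk.2 (t i') hyU hz2.symm with h | h
            · have := hinj _ (by omega) _ (by omega) h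
              omega
            · have := hinj _ (by omega) _ (by omega) h
              rw [show k = i' - 1 by omega]
          intro a ha b hb
          rw [hone a ha, hone b hb]
        have hdeg := hsplit (t i')
        rw [(ht i' (by omega)).2] at hdeg
        omega
  · intro x hx
    rw [hBT]
    exact hClQ x (hTsub hx)
  · have : B.card + T.card = (A ∪ (Q ∪ E)).card := by
      rw [← hBT, card_union_of_disjoint hBTd]
    have h1 := card_union_le A (Q ∪ E)
    have h2 := card_union_le Q E
    omega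
  · rw [hTcard]
    omega
  · rw [hTcard]
    omega

end PieceG

open PieceG in
theorem stPieceG (h : StCutM) : StPieceG := by
  intro V _ G A R Q t l q ρ hq hAR hK hA hQ hH hl ht hinj hadj hone hρ
  by_cases hl' : l ≤ 2 * q + 6
  · exact ⟨A, ∅, Subset.rfl, subset_union_left, empty_subset _, disjoint_empty_right _, hA,
      Hang_empty _, by simp only [card_empty]; omega, by simp only [card_empty]; omega, by simp⟩
  push Not at hl'
  -- first cut
  obtain ⟨c1, d1, s1⟩ := facts (G := G) (U := A ∪ Q) (t := t) hq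
    (fun i hi j hj => hinj i (by omega) j (by omega)) (fun i hi => hadj i (by omega))
    (fun i j hij hj hG => adj_succ ht hinj hadj hij (by omega) (by omega) hG)
    (fun i hi => (ht i (by omega)).2) (fun i hi => mem_union_right _ (ht i (by omega)).1)
  set M1 : Finset V := (range (q + 1)).image t with hM1
  have hM1Q : M1 ⊆ Q := by
    intro x hx
    obtain ⟨i, hi, rfl⟩ := mem_image.1 hx
    rw [mem_range] at hi
    exact (ht i (by omega)).1
  obtain ⟨E1, hE1, hE1c, hH1, ⟨z1, hz1, hb1⟩, x1, x1', hx1⟩ := h V G A R Q M1 q ρ hq hAR hK hQ hH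
    hM1Q c1.ge d1 s1 hρ
  have hd1 : Disjoint (A ∪ Q) E1 := by
    rw [disjoint_left]
    intro x hx hxE
    have := mem_sdiff.1 (hE1 hxE)
    rcases mem_union.1 hx with hx | hx
    · exact disjoint_left.1 hAR hx this.1
    · exact this.2 hx
  -- second cut
  set M2 : Finset V := (range (q + 1)).image (fun i => t (l - (q + 1) + i)) with hM2
  have hM2Q : M2 ⊆ Q := by
    intro x hx
    obtain ⟨i, hi, rfl⟩ := mem_image.1 hx
    rw [mem_range] at hi
    exact (ht _ (by omega)).1
  have hcut2 : ∃ E2 : Finset V, E2 ⊆ R \ (Q ∪ E1) ∧ E2.card ≤ 2 * ρ ∧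
      Hang G A (Q ∪ (E1 ∪ E2)) ∧
      (∃ v, v < l ∧ l ≤ v + (q + 1) ∧ 1 ≤ dg G (E1 ∪ E2) (t v)) ∧
      ∃ x x' : V, ∀ y ∈ E2, y ≠ x → y ≠ x' → ∀ i, i + (q + 1) < l → ¬ G.Adj y (t i) := by
    by_cases hbr : ∃ v, v < l ∧ l ≤ v + (q + 1) ∧ 1 ≤ dg G E1 (t v)
    · refine ⟨∅, by simp, by simp, by simpa using hH1, ?_, t 0, t 0, by simp⟩
      rw [union_empty]
      exact hbr
    · push Not at hbr
      have hdeg : ∀ i, i < l → l ≤ i + (q + 1) → dg G (A ∪ (Q ∪ E1)) (t i) = 2 := by
        intro i hi hi2
        have h0 := hbr i hi hi2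
        rw [← union_assoc, dg_union_disj hd1, (ht i hi).2]
        omega
      obtain ⟨c2, d2, s2⟩ := facts (G := G) (U := A ∪ (Q ∪ E1)) (t := fun i => t (l - (q + 1) + i)) hq
        (fun i hi j hj hij => by
          have := hinj _ (by omega) _ (by omega) hij
          omega)
        (fun i hi => by
          have := hadj (l - (q + 1) + i) (by omega)
          exact this)
        (fun i j hij hj hG => by
          have := adj_succ ht hinj hadj (i := l - (q + 1) + i) (j := l - (q + 1) + j) (by omega)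
            (by omega) (by omega) hG
          omega)
        (fun i hi => hdeg _ (by omega) (by omega))
        (fun i hi => mem_union_right _ (mem_union_left _ (ht _ (by omega)).1))
      obtain ⟨E2, hE2, hE2c, hH2, ⟨z2, hz2, hb2⟩, x2, x2', hx2⟩ := h V G A R (Q ∪ E1) M2 q ρ hq hAR
        hK (union_subset hQ (fun x hx => (mem_sdiff.1 (hE1 hx)).1)) hH1
        (hM2Q.trans subset_union_left) c2.ge d2 s2 hρ
      refine ⟨E2, hE2, hE2c, by rw [← union_assoc]; exact hH2, ?_, x2, x2', ?_⟩
      · obtain ⟨i, hi, rfl⟩ := mem_image.1 hz2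
        rw [mem_range] at hi
        exact ⟨_, by omega, by omega, hb2.trans (dg_mono subset_union_right _)⟩
      · intro y hy hy1 hy2 i hi
        apply hx2 y hy hy1 hy2 (t i)
        rw [mem_sdiff]
        refine ⟨mem_union_left _ (ht i (by omega)).1, fun hm => ?_⟩
        obtain ⟨j, hj, hj2⟩ := mem_image.1 hm
        rw [mem_range] at hj
        have := hinj _ (by omega) _ (by omega) hj2
        omega
  obtain ⟨E2, hE2, hE2c, hH2, ⟨v0, hv0, hv0l, hv0b⟩, x2, x2', hx2⟩ := hcut2
  set E := E1 ∪ E2 with hEdef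
  have hE : E ⊆ R \ Q := by
    intro x hx
    rcases mem_union.1 hx with hx | hx
    · exact hE1 hx
    · have := mem_sdiff.1 (hE2 hx)
      exact mem_sdiff.2 ⟨this.1, fun h => this.2 (mem_union_left _ h)⟩
  have hEc : E.card ≤ 4 * ρ := by
    have := card_union_le E1 E2
    rw [← hEdef] at this
    omega
  -- the last branching vertex of the first part
  obtain ⟨u, hu3, hub, humax⟩ : ∃ u, u < q + 1 ∧ 1 ≤ dg G E (t u) ∧
      ∀ j, u < j → j < q + 1 → ¬ 1 ≤ dg G E (t j) := by
    have hne : ((range (q + 1)).filter (fun i => 1 ≤ dg G E (t i))).Nonempty := by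
      obtain ⟨i, hi, rfl⟩ := mem_image.1 hz1
      exact ⟨i, mem_filter.2 ⟨hi, hb1.trans (dg_mono subset_union_left _)⟩⟩
    have hmax := max'_mem _ hne
    set u := ((range (q + 1)).filter (fun i => 1 ≤ dg G E (t i))).max' hne with hu
    rw [mem_filter, mem_range] at hmax
    refine ⟨u, hmax.1, hmax.2, fun j hj1 hj2 hj3 => ?_⟩
    have := le_max' ((range (q + 1)).filter (fun i => 1 ≤ dg G E (t i))) j
      (mem_filter.2 ⟨mem_range.2 hj2, hj3⟩)
    omega
  -- the first branching vertex of the last part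
  obtain ⟨v, hvl, hvl3, hvb, hvmin⟩ : ∃ v, v < l ∧ l ≤ v + (q + 1) ∧ 1 ≤ dg G E (t v) ∧
      ∀ j, l ≤ j + (q + 1) → j < v → ¬ 1 ≤ dg G E (t j) := by
    have hex : ∃ v, v < l ∧ l ≤ v + (q + 1) ∧ 1 ≤ dg G E (t v) := ⟨v0, hv0, hv0l, hv0b⟩
    refine ⟨Nat.find hex, (Nat.find_spec hex).1, (Nat.find_spec hex).2.1,
      (Nat.find_spec hex).2.2, ?_⟩
    intro j h1 h2 h3
    exact Nat.find_min hex h2 ⟨h2.trans (Nat.find_spec hex).1, h1, h3⟩
  -- at most four elements in between
  have hfew : ((Ioo u v).filter (fun i => 1 ≤ dg G E (t i))).card ≤ 4 := by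
    set X : Finset V := {x1, x1', x2, x2'} with hX
    have hXc : X.card ≤ 4 := card_le_four
    have hsub : (Ioo u v).filter (fun i => 1 ≤ dg G E (t i)) ⊆
        X.biUnion (fun x => (range l).filter (fun i => x ∈ R \ Q ∧ G.Adj x (t i))) := by
      intro i hi
      simp only [mem_filter, mem_Ioo] at hi
      obtain ⟨⟨hi1, hi2⟩, hi3⟩ := hi
      have hi0 : q + 1 ≤ i := by
        by_contra hlt
        exact humax i hi1 (by omega) hi3
      have hil : i + (q + 1) < l := by
        by_contra hlt
        exact hvmin i (by omega) hi2 hi3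
      obtain ⟨y, hy, hG⟩ := one_le_dg_iff.1 hi3
      rw [mem_biUnion]
      refine ⟨y, ?_, ?_⟩
      · rw [hX]
        simp only [mem_insert, mem_singleton]
        by_contra hne
        push Not at hne
        rcases mem_union.1 hy with hy | hy
        · refine hx1 y hy hne.1 hne.2.1 (t i) ?_ hG.symm
          rw [mem_sdiff]
          refine ⟨(ht i (by omega)).1, fun hm => ?_⟩
          obtain ⟨j, hj, hj2⟩ := mem_image.1 hm
          rw [mem_range] at hj
          have := hinj _ (by omega) _ (by omega) hj2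
          omega
        · exact hx2 y hy hne.2.2.1 hne.2.2.2 i hil hG.symm
      · simp only [mem_filter, mem_range]
        exact ⟨by omega, hE hy, hG.symm⟩
    calc _ ≤ _ := card_le_card hsub
      _ ≤ X.card * 1 := by
        apply card_biUnion_le_card_mul
        intro x _
        apply card_le_one.2
        intro a ha b hb
        simp only [mem_filter, mem_range] at ha hb
        exact hone x ha.2.1 a ha.1 b hb.1 ha.2.2 hb.2.2
      _ ≤ 4 := by omega
  obtain ⟨B, T, r1, r2, r3, r4, r5, r6, r7, r8, r9⟩ := build hAR hA hQ hE hH2 ht hinj hadj hu3 hvl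
    hvl3 (by omega) hub hvb hfew (by omega)
  exact ⟨B, T, r1, r2, r3, r4, r5, r6, by omega, r8, r9⟩

end Pool.Agent.Lib.MP_d31508_co.Shr
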