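import Pool.Agent.Lib.MP_d31508_co.Shr.Stmts
import Pool.Agent.Lib.MP_d31508_co.Sharp.Basic

/-! Module SelL: `L` removable vertices of small degree from local hypotheses. -/

namespace Pool.Agent.Lib.MP_d31508_co.Shr

open Finset Classical
open Pool.Agent.Lib.MP_d31508_co.Asy (dg Cl D HasP f)

namespace SelL

variable {V : Type} {G : SimpleGraph V}

/-- greedy choice of pairwise compatible elements -/
lemma greedy (S : Finset V) (c L : ℕ) (K : V → Finset V)
    (hK : ∀ y ∈ S, (K y).card ≤ c) (hL : L * c < S.card)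
    (hself : ∀ y ∈ S, y ∈ K y) (hsym : ∀ y ∈ S, ∀ z ∈ S, z ∈ K y → y ∈ K z) :
    ∀ j ≤ L, ∃ Y : Finset V, Y ⊆ S ∧ Y.card = j ∧
      ∀ y ∈ Y, ∀ z ∈ Y, y ≠ z → z ∉ K y := by
  intro j
  induction j with
  | zero =>
    intro _
    exact ⟨∅, by simp, by simp, by simp⟩
  | succ j ih =>
    intro hj
    obtain ⟨Y, hYS, hYc, hY⟩ := ih (by omega)
    have h1 : (Y.biUnion K).card < S.card := by
      calc (Y.biUnion K).card ≤ Y.card * c :=
            card_biUnion_le_card_mul _ _ _ (fun y hy => hK y (hYS hy))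
        _ ≤ L * c := by rw [hYc]; exact Nat.mul_le_mul_right _ (by omega)
        _ < S.card := hL
    obtain ⟨z, hzS, hz⟩ : ∃ z ∈ S, z ∉ Y.biUnion K := by
      by_contra hcon
      push Not at hcon
      exact absurd (card_le_card (fun z hz => hcon z hz)) (not_le.mpr h1)
    rw [mem_biUnion] at hz
    push Not at hz
    have hzY : z ∉ Y := fun h => hz z h (hself z hzS)
    refine ⟨insert z Y, ?_, ?_, ?_⟩
    · intro x hx
      rcases mem_insert.mp hx with rfl | hx
      · exact hzS
      · exact hYS hx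
    · rw [card_insert_of_notMem hzY, hYc]
    · intro x hx w hw hxw
      rcases mem_insert.mp hx with hx' | hx'
      · rcases mem_insert.mp hw with hw' | hw'
        · exact absurd (hx'.trans hw'.symm) hxw
        · rw [hx']
          intro hK'
          exact hz w hw' (hsym z hzS w (hYS hw') hK')
      · rcases mem_insert.mp hw with hw' | hw'
        · rw [hw']
          exact hz x hx'
        · exact hY x hx' w hw' hxw

/-- few vertices of degree more than `72` -/
lemma few_high (W : Finset V) (hD : D G W ≤ 6 * W.card) :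
    73 * (W.filter (fun v => ¬ dg G W v ≤ 72)).card ≤ 6 * W.card := by
  refine le_trans ?_ hD
  unfold D
  calc 73 * (W.filter (fun v => ¬ dg G W v ≤ 72)).card
      = ∑ _v ∈ W.filter (fun v => ¬ dg G W v ≤ 72), 73 := by
        rw [sum_const, smul_eq_mul, Nat.mul_comm]
    _ ≤ ∑ v ∈ W.filter (fun v => ¬ dg G W v ≤ 72), dg G W v := by
        apply sum_le_sum
        intro v hv
        have := (mem_filter.mp hv).2
        omega
    _ ≤ ∑ v ∈ W, dg G W v := sum_le_sum_of_subset (filter_subset _ _)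

/-- the good vertices -/
noncomputable def gd (G : SimpleGraph V) (W : Finset V) : Finset V :=
  W.filter (fun y => (∀ u ∈ W, G.Adj y u → 3 ≤ dg G W u) ∧ dg G W y ≤ 72)

lemma mem_gd {W : Finset V} {y : V} :
    y ∈ gd G W ↔ y ∈ W ∧ (∀ u ∈ W, G.Adj y u → 3 ≤ dg G W u) ∧ dg G W y ≤ 72 := by
  unfold gd
  rw [mem_filter]

lemma gd_sub (W : Finset V) : gd G W ⊆ W := filter_subset _ _

lemma low_le (W : Finset V)
    (h2 : ∀ u ∈ W, ∀ v ∈ W, G.Adj u v → 5 ≤ dg G W u + dg G W v) :
    (W.filter (fun v => dg G W v ≤ 72)).card ≤ 3 * (gd G W).card := by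
  have hsub : W.filter (fun v => dg G W v ≤ 72) ⊆ (gd G W).biUnion
      (fun y => insert y (if dg G W y ≤ 2 then W.filter (fun v => G.Adj y v) else ∅)) := by
    intro v hv
    obtain ⟨hvW, hv72⟩ := mem_filter.mp hv
    rw [mem_biUnion]
    by_cases hg : ∀ u ∈ W, G.Adj v u → 3 ≤ dg G W u
    · exact ⟨v, mem_gd.mpr ⟨hvW, hg, hv72⟩, mem_insert_self _ _⟩
    · push Not at hg
      obtain ⟨u, huW, hvu, hu⟩ := hg
      refine ⟨u, mem_gd.mpr ⟨huW, ?_, by omega⟩, ?_⟩
      · intro w hw huw
        have := h2 u huW w hw huw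
        omega
      · rw [if_pos (by omega)]
        exact mem_insert_of_mem (mem_filter.mpr ⟨hvW, hvu.symm⟩)
  calc (W.filter (fun v => dg G W v ≤ 72)).card ≤ _ := card_le_card hsub
    _ ≤ (gd G W).card * 3 := by
        apply card_biUnion_le_card_mul
        intro y _
        refine le_trans (card_insert_le _ _) ?_
        split_ifs with h
        · have : (W.filter (fun v => G.Adj y v)).card = dg G W y := rfl
          omega
        · simp
    _ = 3 * (gd G W).card := Nat.mul_comm _ _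

lemma gd_card (W : Finset V)
    (h2 : ∀ u ∈ W, ∀ v ∈ W, G.Adj u v → 5 ≤ dg G W u + dg G W v)
    (hD : D G W ≤ 6 * W.card) : W.card ≤ 6 * (gd G W).card := by
  have ha := few_high (G := G) W hD
  have hb := low_le (G := G) W h2
  have hc := card_filter_add_card_filter_not (s := W) (fun v => dg G W v ≤ 72)
  omega

/-- the vertices in conflict with `y` -/
noncomputable def conf (G : SimpleGraph V) (W : Finset V) (L : ℕ) (y : V) : Finset V :=
  insert y ((W.filter (fun u => G.Adj y u ∧ dg G W u ≤ L + 1)).biUnion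
    (fun u => W.filter (fun z => G.Adj u z)))

lemma conf_card (W : Finset V) (L : ℕ) (y : V) (hy : dg G W y ≤ 72) :
    (conf G W L y).card ≤ 72 * (L + 2) + 1 := by
  unfold conf
  refine le_trans (card_insert_le _ _) ?_
  have h1 : ((W.filter (fun u => G.Adj y u ∧ dg G W u ≤ L + 1)).biUnion
      (fun u => W.filter (fun z => G.Adj u z))).card ≤
      (W.filter (fun u => G.Adj y u ∧ dg G W u ≤ L + 1)).card * (L + 1) := by
    apply card_biUnion_le_card_mul
    intro u hu
    exact (mem_filter.mp hu).2.2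
  have h2 : (W.filter (fun u => G.Adj y u ∧ dg G W u ≤ L + 1)).card ≤ 72 := by
    refine le_trans (card_le_card ?_) hy
    intro u hu
    obtain ⟨a, b, _⟩ := mem_filter.mp hu
    exact mem_filter.mpr ⟨a, b⟩
  have h3 := Nat.mul_le_mul_right (L + 1) h2
  nlinarith [h1, h3]

lemma mem_conf {W : Finset V} {L : ℕ} {y z : V} :
    z ∈ conf G W L y ↔ z = y ∨ ∃ u ∈ W, G.Adj y u ∧ dg G W u ≤ L + 1 ∧ z ∈ W ∧ G.Adj u z := by
  unfold conf
  rw [mem_insert, mem_biUnion]
  constructor
  · rintro (h | ⟨u, hu, hz⟩)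
    · exact Or.inl h
    · obtain ⟨a, b, c⟩ := mem_filter.mp hu
      obtain ⟨d, e⟩ := mem_filter.mp hz
      exact Or.inr ⟨u, a, b, c, d, e⟩
  · rintro (h | ⟨u, a, b, c, d, e⟩)
    · exact Or.inl h
    · exact Or.inr ⟨u, mem_filter.mpr ⟨a, b, c⟩, mem_filter.mpr ⟨d, e⟩⟩

end SelL

open SelL in
/-- module SelL -/
theorem stSelL : StSelL := by
  intro V _ G W L h1 h2 hD hL
  have hg := gd_card (G := G) W h2 hD
  have hgW : gd G W ⊆ W := gd_sub W
  obtain ⟨Y, hYS, hYc, hY⟩ := greedy (gd G W) (72 * (L + 2) + 1) L (conf G W L)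
    (fun y hy => conf_card W L y (mem_gd.mp hy).2.2) (by omega)
    (fun y _ => mem_conf.mpr (Or.inl rfl))
    (by
      intro y hy z hz hzy
      rcases mem_conf.mp hzy with h | ⟨u, a, b, c, d, e⟩
      · exact mem_conf.mpr (Or.inl h.symm)
      · exact mem_conf.mpr (Or.inr ⟨u, a, e.symm, c, hgW hy, b.symm⟩)) L le_rfl
  have hYW : Y ⊆ W := hYS.trans hgW
  refine ⟨Y, hYW, hYc, ?_, ?_⟩
  · intro u hu
    have hsplit : dg G W u = dg G (W \ Y) u + dg G Y u := by
      have := Sharp.dg_union_disj (G := G) (X := W \ Y) (Y := Y) sdiff_disjoint u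
      rw [sdiff_union_of_subset hYW] at this
      exact this
    have hle := Sharp.dg_le_card (G := G) Y u
    by_cases hbig : L + 2 ≤ dg G W u
    · omega
    · have hone : dg G Y u ≤ 1 := by
        unfold dg
        rw [card_le_one]
        intro a ha b hb
        obtain ⟨ha1, ha2⟩ := mem_filter.mp ha
        obtain ⟨hb1, hb2⟩ := mem_filter.mp hb
        by_contra hab
        exact hY a ha1 b hb1 hab (mem_conf.mpr (Or.inr
          ⟨u, hu, ha2.symm, by omega, hYW hb1, hb2⟩))
      by_cases h0 : dg G Y u = 0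
      · have := h1 u hu
        omega
      · obtain ⟨y, hy, huy⟩ := (Sharp.one_le_dg_iff (G := G) (X := Y) (x := u)).mp (by omega)
        have := (mem_gd.mp (hYS hy)).2.1 u hu huy.symm
        omega
  · calc ∑ y ∈ Y, dg G W y ≤ ∑ _y ∈ Y, 72 :=
          sum_le_sum (fun y hy => (mem_gd.mp (hYS hy)).2.2)
      _ = 72 * L := by rw [sum_const, hYc, smul_eq_mul, Nat.mul_comm]

end Pool.Agent.Lib.MP_d31508_co.Shr
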