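import Pool.Agent.Lib.MP_d31508_co.Shr.Stmts
import Pool.Agent.Lib.MP_d31508_co.Shq.Susp

/-!
# Module SuspG: a small set hanging on `A` with a long path of vertices of degree two
(general density `(q + 1) / q`)
-/

namespace Pool.Agent.Lib.MP_d31508_co.Shr

open Finset Classical
open Pool.Agent.Lib.MP_d31508_co.Asy (dg Cl D)
open Pool.Agent.Lib.MP_d31508_co.Sharp
open Pool.Agent.Lib.MP_d31508_co.Shq.Susp

theorem stSuspG : StSuspG := by
  intro V _ G A R Ah w q ρ hq hAR hker hAAh ⟨v, hvR, hvAh⟩ hρ hH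
  obtain ⟨E, hE, hvE, hEc, hEh⟩ := cover (q := q) (r := ρ) hker hAR hρ v hvR
  set F := R.powerset.filter (fun Q => Hang G A Q ∧ ¬ Q ⊆ Ah) with hF
  have hEF : E ∈ F := by
    rw [hF, mem_filter, mem_powerset]
    exact ⟨hE, hEh, fun h => hvAh (h hvE)⟩
  obtain ⟨Q, hQF, hmin⟩ := exists_min_image F card ⟨E, hEF⟩
  have hQc : Q.card ≤ 4 * ρ + 3 := (hmin E hEF).trans hEc
  rw [hF, mem_filter, mem_powerset] at hQF
  obtain ⟨hQR, hQh, hQA⟩ := hQF
  have hdat : Dat G A R Ah Q (Q \ Ah) (A ∪ (Q ∩ Ah)) w := by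
    refine ⟨hQR, hQh, hAAh, rfl, rfl, hAR, hH, ?_⟩
    intro X hXQ hXA hXh
    refine eq_of_subset_of_card_le hXQ (hmin X ?_)
    rw [hF, mem_filter, mem_powerset]
    exact ⟨hXQ.trans hQR, hXh, hXA⟩
  obtain ⟨x₀, hx₀⟩ : (Q \ Ah).Nonempty := by
    rw [Finset.nonempty_iff_ne_empty, ne_eq, sdiff_eq_empty_iff_subset]
    exact hQA
  have hgoal : Goal G A Q (Q \ Ah) w := by
    obtain ⟨s, y, hy, -, hmax⟩ := exists_longest G (Q \ Ah) (fun _ => True) (y₀ := fun _ => x₀)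
      ⟨fun i _ => hx₀, fun i hi j hj _ => by omega, fun i hi => by omega⟩ trivial
    by_cases hc : ∃ a b, a + 2 ≤ b ∧ b ≤ s ∧ G.Adj (y a) (y b)
    · obtain ⟨a, b, hab, hb, hadj⟩ := hc
      refine hdat.case_cycle (hy.seg (show a ≤ b by omega) hb) (by omega) ?_
      show G.Adj (y (a + 0)) (y (a + (b - a)))
      rw [add_zero, show a + (b - a) = b by omega]
      exact hadj
    · push Not at hc
      exact hdat.case_path hy (fun s' y' h => hmax s' y' h trivial) hc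
  obtain ⟨t, ht1, ht2, ht3⟩ := hgoal
  refine ⟨Q, t, hQR, hQc, hQh, fun i hi => ⟨sdiff_subset (ht1 i hi).1, (ht1 i hi).2⟩, ht2, ht3, ?_⟩
  intro x hx i hi j hj h1 h2
  rcases Nat.lt_trichotomy i j with h3 | h3 | h3
  · exact (hdat.last (fun i hi => (ht1 i hi).1) ht2 ht3 hx h3 hj h1 h2).elim
  · exact h3
  · exact (hdat.last (fun i hi => (ht1 i hi).1) ht2 ht3 hx h3 hi h2 h1).elim

end Pool.Agent.Lib.MP_d31508_co.Shr
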