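import Pool.Agent.Lib.MP_d31508_co.Shr.Stmts
import Pool.Agent.Lib.MP_d31508_co.Shq.Final2
import Pool.Agent.Lib.MP_d31508_co.Sharp.FinalB

/-!
# Project SHR, module Final: the exact value of `f(n,k)` up to `log n ≤ c k / log k`
-/

set_option linter.unusedSectionVars false

namespace Pool.Agent.Lib.MP_d31508_co.Shr

open Finset Classical
open Pool.Agent.Lib.MP_d31508_co.Asy (dg Cl D f stCompl)
open Pool.Agent.Lib.MP_d31508_co.Sharp (exact_values exact_of_bound)
open Pool.Agent.Lib.MP_d31508_co.Shq.Final2 (log2_le)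

namespace Final

/-- the exponent `ρ` -/
lemma rho_exists {n : ℕ} (hn : 1 ≤ n) :
    ∃ ρ : ℕ, 1 ≤ ρ ∧ n * 4 ^ ρ < 5 ^ ρ ∧ (ρ : ℝ) ≤ 5 * Real.log n + 1 := by
  have hn0 : (0 : ℝ) < n := by exact_mod_cast hn
  have hx0 : 0 ≤ Real.log n := Real.log_natCast_nonneg n
  refine ⟨⌊5 * Real.log n⌋₊ + 1, by omega, ?_, ?_⟩
  · set r := ⌊5 * Real.log n⌋₊ + 1 with hr
    have h1 : 5 * Real.log n < r := by
      rw [hr]; push_cast
      exact Nat.lt_floor_add_one _
    have h3 : 1 / 5 ≤ Real.log (5 / 4 : ℝ) := by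
      have h4 := Real.one_sub_inv_le_log_of_pos (show (0 : ℝ) < 5 / 4 by norm_num)
      norm_num at h4
      linarith
    have h6 : (n : ℝ) < (5 / 4 : ℝ) ^ r := by
      rw [← Real.log_lt_log_iff hn0 (by positivity), Real.log_pow]
      have h7 : (r : ℝ) * (1 / 5) ≤ r * Real.log (5 / 4 : ℝ) :=
        mul_le_mul_of_nonneg_left h3 (by positivity)
      linarith
    have h8 : (n : ℝ) * 4 ^ r < 5 ^ r := by
      rw [div_pow, lt_div_iff₀ (by positivity)] at h6
      exact h6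
    exact_mod_cast h8
  · push_cast
    have := Nat.floor_le (show 0 ≤ 5 * Real.log n by positivity)
    linarith

variable {V : Type} [Fintype V]

lemma dg_comap {N : ℕ} (g : Fin N ↪ V) (H : SimpleGraph V) (S : Finset (Fin N)) (x : Fin N) :
    dg (H.comap g) S x = dg H (S.map g) (g x) := by
  unfold dg
  rw [← card_map g]
  congr 1
  ext y
  simp only [mem_map, mem_filter, SimpleGraph.comap_adj]
  constructor
  · rintro ⟨a, ⟨h1, h2⟩, rfl⟩
    exact ⟨⟨a, h1, rfl⟩, h2⟩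
  · rintro ⟨⟨a, h1, rfl⟩, h2⟩
    exact ⟨a, ⟨h1, h2⟩, rfl⟩

/-- the graph induced on `W`, as a graph on `Fin |W|` -/
lemma transfer (H : SimpleGraph V) (W : Finset V) :
    ∃ H' : SimpleGraph (Fin W.card), D H' univ = D H W ∧
      ∀ S : Finset (Fin W.card), Cl H' S → ∃ S' : Finset V, S'.card = S.card ∧ Cl H S' := by
  set g : Fin W.card ↪ V := W.equivFin.symm.toEmbedding.trans (Function.Embedding.subtype _)
    with hg
  have hW : univ.map g = W := by
    ext y
    simp only [mem_map, mem_univ, true_and]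
    constructor
    · rintro ⟨a, rfl⟩
      simp [hg]
    · intro hy
      refine ⟨W.equivFin ⟨y, hy⟩, ?_⟩
      simp [hg]
  refine ⟨H.comap g, ?_, ?_⟩
  · conv_rhs => rw [← hW]
    unfold D
    rw [sum_map]
    apply sum_congr rfl
    intro x _
    exact dg_comap g H univ x
  · intro S hS
    refine ⟨S.map g, card_map g, ?_⟩
    intro x hx
    rw [mem_map] at hx
    obtain ⟨a, ha, rfl⟩ := hx
    rw [← dg_comap]
    exact hS a ha

lemma aux2 {K : ℝ} (hK : 2 ≤ K) : K + 2 ≤ K ^ 2 := by nlinarith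

lemma aux1 {δ K N : ℝ} (hδ : 0 < δ) (hK : 2 ≤ K) (h : (1 + δ) * K ^ 2 ≤ N) : K + 2 ≤ N := by
  have h1 := aux2 hK
  have h2 : 0 ≤ δ * K ^ 2 := by positivity
  linarith

lemma aux3 {δ K W : ℝ} (hδ : δ ≤ 1) (hK : 2 ≤ K) (h : (K + 2) ^ 3 ≤ W) :
    (1 + δ) * K ^ 2 ≤ W := by
  have h3 : (1 + δ) * K ^ 2 ≤ 2 * K ^ 2 := mul_le_mul_of_nonneg_right (by linarith) (by positivity)
  have h4 : 2 * K ^ 2 ≤ (K + 2) ^ 3 := by
    have h5 : 0 ≤ K ^ 3 := by positivity
    have h6 : (K + 2) ^ 3 = K ^ 3 + 6 * K ^ 2 + 12 * K + 8 := by ring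
    have h7 : 0 ≤ K ^ 2 := by positivity
    linarith
  linarith

lemma aux4 {x y : ℝ} (hy : 0.69 ≤ y) (hx : 0 ≤ x) : 0.69 * x ≤ x * y := by nlinarith

lemma aux5 {C₀ L y T : ℝ} (hL0 : 0 ≤ L) (hL : L ≤ 120 * y)
    (h : (|C₀| * 120 ^ 70 + 10 ^ 9) * y ^ 70 ≤ T) : C₀ * L ^ 70 ≤ T := by
  have h5 : L ^ 70 ≤ (120 * y) ^ 70 := pow_le_pow_left₀ hL0 hL 70
  have hy : 0 ≤ y := by linarith
  have h9 : 0 ≤ (10 : ℝ) ^ 9 * y ^ 70 := mul_nonneg (by norm_num) (pow_nonneg hy 70)
  calc C₀ * L ^ 70 ≤ |C₀| * L ^ 70 :=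
        mul_le_mul_of_nonneg_right (le_abs_self _) (pow_nonneg hL0 70)
    _ ≤ |C₀| * (120 * y) ^ 70 := mul_le_mul_of_nonneg_left h5 (abs_nonneg _)
    _ = |C₀| * 120 ^ 70 * y ^ 70 := by rw [mul_pow, mul_assoc]
    _ ≤ |C₀| * 120 ^ 70 * y ^ 70 + 10 ^ 9 * y ^ 70 := le_add_of_nonneg_right h9
    _ = (|C₀| * 120 ^ 70 + 10 ^ 9) * y ^ 70 := (add_mul _ _ _).symm
    _ ≤ T := h

lemma aux6 {C₀ z K : ℝ} (hz : 0 ≤ z) (h : (|C₀| * 120 ^ 70 + 10 ^ 9) * z ≤ K) :
    10 ^ 9 * z ≤ K := by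
  have h1 : 0 ≤ |C₀| * 120 ^ 70 * z :=
    mul_nonneg (mul_nonneg (abs_nonneg _) (pow_nonneg (by norm_num) 70)) hz
  rw [add_mul] at h
  exact (le_add_of_nonneg_left h1).trans h

end Final

open Final in
theorem stExact (hE : StExt) : StExact := by
  obtain ⟨C₀, h₀⟩ := exact_values
  refine ⟨|C₀| * 120 ^ 70 + 10 ^ 9, by positivity, ?_⟩
  intro δ n k hδ0 hδ1 hk hn hC1 hC2
  have hK2 : (2 : ℝ) ≤ k := by exact_mod_cast hk
  set x := Real.log n with hx
  set y := Real.log k with hy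
  have hy1 : 0.69 ≤ y := by
    have h3 : Real.log 2 ≤ Real.log k := Real.log_le_log (by norm_num) hK2
    have h4 := Real.log_two_gt_d9
    linarith
  have hlog2 : Real.log ((k + 2 : ℕ) : ℝ) ≤ 2 * y := by
    have h1 : ((k + 2 : ℕ) : ℝ) ≤ (k : ℝ) ^ 2 := by push_cast; exact aux2 hK2
    have h2 := Real.log_le_log (by positivity) h1
    rw [Real.log_pow] at h2
    exact_mod_cast h2
  -- the range of `ExactValues`
  have key : ∀ N : ℕ, (1 + δ) * (k : ℝ) ^ 2 ≤ N → N ≤ (k + 2) ^ 60 →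
      (Even k → f N k + 3 * (N - 1) / 2 = N.choose 2) ∧
      (Odd k → f N k + (3 * N / 2 - 2) = N.choose 2) := by
    intro N hN hN60
    have hNk : k + 2 ≤ N := by
      have h1 : ((k + 2 : ℕ) : ℝ) ≤ (N : ℝ) := by
        push_cast
        exact aux1 hδ0 hK2 hN
      exact_mod_cast h1
    refine h₀ δ N k hδ0 hδ1 hNk ?_ hN
    have hN0 : (0 : ℝ) < N := by exact_mod_cast (by omega : 0 < N)
    have h1 : Real.log N ≤ 120 * y := by
      have h2 : (N : ℝ) ≤ ((k + 2 : ℕ) : ℝ) ^ 60 := by exact_mod_cast hN60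
      have h3 := Real.log_le_log hN0 h2
      rw [Real.log_pow] at h3
      push_cast at h3 hlog2
      linarith
    have h4 : 0 ≤ Real.log N := Real.log_natCast_nonneg N
    exact aux5 h4 h1 hC1
  rcases le_or_gt n ((k + 2) ^ 60) with hcase | hcase
  · exact key n hn hcase
  · have hpos : 0 < k + 2 := by omega
    have hnk : k + 2 ≤ n := by
      have : (k + 2) ^ 1 ≤ (k + 2) ^ 60 := Nat.pow_le_pow_right hpos (by norm_num)
      rw [pow_one] at this
      omega
    have hn20 : (k + 2) ^ 20 ≤ n := by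
      have : (k + 2) ^ 20 ≤ (k + 2) ^ 60 := Nat.pow_le_pow_right hpos (by norm_num)
      omega
    have hxy : y ≤ x := Real.log_le_log (by linarith) (by
      have : ((k + 2 : ℕ) : ℝ) ≤ n := by exact_mod_cast hnk
      push_cast at this
      linarith)
    have hx60 : 41 ≤ x := by
      have h1 : (k : ℝ) ^ 60 ≤ n := by
        have h2 : k ^ 60 ≤ (k + 2) ^ 60 := Nat.pow_le_pow_left (by omega) 60
        exact_mod_cast (h2.trans hcase.le)
      have h2 := Real.log_le_log (by positivity) h1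
      rw [Real.log_pow] at h2
      push_cast at h2
      have h3 : 60 * y ≤ x := h2
      linarith
    obtain ⟨ρ, hρ1, hρp, hρx⟩ := rho_exists (n := n) (by omega)
    have hρ6 : (ρ : ℝ) ≤ 6 * x := by linarith
    have hCK : 10 ^ 9 * (x * y) ≤ k :=
      aux6 (mul_nonneg (by linarith) (by linarith)) hC2
    have hρk : ρ ≤ k := by
      have h1 : (0.69 : ℝ) * x ≤ x * y := aux4 hy1 (by linarith)
      have : (ρ : ℝ) ≤ k := by linarith
      exact_mod_cast this
    have hlog : ((Nat.log 2 ρ + 1 : ℕ) : ℝ) ≤ 3 * y := by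
      have h1 : Nat.log 2 ρ + 1 ≤ Nat.log 2 k + 1 :=
        Nat.add_le_add_right (Nat.log_mono_right hρk) 1
      have h2 : ((Nat.log 2 ρ + 1 : ℕ) : ℝ) ≤ ((Nat.log 2 k + 1 : ℕ) : ℝ) := by exact_mod_cast h1
      exact h2.trans (log2_le hk)
    have hc1 : 10000000 * ρ * (Nat.log 2 ρ + 1) ≤ k + 2 := by
      have h0 : (ρ : ℝ) * ((Nat.log 2 ρ + 1 : ℕ) : ℝ) ≤ 6 * x * (3 * y) :=
        mul_le_mul hρ6 hlog (Nat.cast_nonneg _) (by positivity)
      have h1 : 10000000 * (ρ : ℝ) * ((Nat.log 2 ρ + 1 : ℕ) : ℝ) ≤ k + 2 := by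
        calc 10000000 * (ρ : ℝ) * ((Nat.log 2 ρ + 1 : ℕ) : ℝ)
            = 10000000 * (ρ * ((Nat.log 2 ρ + 1 : ℕ) : ℝ)) := by ring
          _ ≤ 10000000 * (6 * x * (3 * y)) := mul_le_mul_of_nonneg_left h0 (by norm_num)
          _ = 180000000 * (x * y) := by ring
          _ ≤ 10 ^ 9 * (x * y) := mul_le_mul_of_nonneg_right (by norm_num) (by positivity)
          _ ≤ k + 2 := by linarith
      exact_mod_cast h1
    apply exact_of_bound (by omega) hnk
    intro H hH
    -- bounds for the small sets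
    have hsmall : ∀ W : Finset (Fin n), (k + 2) ^ 20 ≤ W.card → W.card ≤ (k + 2) ^ 60 →
        (Even k → D H W + 2 < 3 * W.card) ∧ (Odd k → D H W + 3 < 3 * W.card) := by
      intro W hW1 hW2
      obtain ⟨H', hD, hcl⟩ := transfer H W
      have hW3 : (1 + δ) * (k : ℝ) ^ 2 ≤ W.card := by
        have h1 : (k + 2) ^ 3 ≤ W.card :=
          (Nat.pow_le_pow_right hpos (by norm_num : 3 ≤ 20)).trans hW1
        have h2 : ((k : ℝ) + 2) ^ 3 ≤ W.card := by exact_mod_cast h1
        exact aux3 hδ1 hK2 h2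
      have hWc : 8 ≤ W.card := by
        have h1 : 2 ^ 20 ≤ (k + 2) ^ 20 := Nat.pow_le_pow_left (by omega) 20
        omega
      obtain ⟨k1, k2⟩ := key W.card hW3 hW2
      obtain ⟨hlow, -⟩ := stCompl W.card k (by omega)
      have h5 := hlow H' (by
        intro S hS hS'
        obtain ⟨S', h6, h7⟩ := hcl S hS'
        exact hH S' (by omega) h7)
      rw [hD] at h5
      have hch : 2 * W.card.choose 2 + W.card = W.card * W.card := by
        rw [Nat.choose_two_right]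
        obtain ⟨j, hj⟩ : ∃ j, W.card = j + 1 := ⟨W.card - 1, by omega⟩
        rw [hj]
        have h1 : j + 1 - 1 = j := by omega
        rw [h1]
        have h2 : 2 ∣ (j + 1) * j := by
          rw [mul_comm]; exact (Nat.even_mul_succ_self j).two_dvd
        rw [Nat.mul_div_cancel' h2]
        ring
      constructor
      · intro he
        have := k1 he
        omega
      · intro ho
        have := k2 ho
        omega
    have hcard : Fintype.card (Fin n) * 4 ^ ρ < 5 ^ ρ := by rw [Fintype.card_fin]; exact hρp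
    have huniv : (k + 2) ^ 20 ≤ (univ : Finset (Fin n)).card := by
      rw [card_univ, Fintype.card_fin]; exact hn20
    constructor
    · intro he
      have hek : Even k := by
        obtain ⟨a, ha⟩ := he
        exact ⟨a - 1, by omega⟩
      have := hE (Fin n) H (k + 2) 2 ρ (by omega) (by norm_num) hρ1 hH
        (fun W h1 h2 => (hsmall W h1 h2).1 hek) hcard hc1 univ huniv
      rw [card_univ, Fintype.card_fin] at this
      omega
    · intro ho
      have hok : Odd k := by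
        obtain ⟨a, ha⟩ := ho
        exact ⟨a - 1, by omega⟩
      have := hE (Fin n) H (k + 2) 3 ρ (by omega) (by norm_num) hρ1 hH
        (fun W h1 h2 => (hsmall W h1 h2).2 hok) hcard hc1 univ huniv
      rw [card_univ, Fintype.card_fin] at this
      omega

end Pool.Agent.Lib.MP_d31508_co.Shr
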