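import Pool.Agent.Lib.MP_d31508_co.Shq.Stmts

/-!
# Project SHR (MP_d31508_co): the exact value of `f(n,k)` for all `n` from `(1+δ) k²` up to
`exp(c k / log k)`

The theorem of helper72 (exact value for `log n` up to a small power of `k`) is extended: a
minimal counterexample with more than `m^60` vertices meets every set in slightly more than `3/2`
edges per vertex, and the machine of project SHQ, with kernels of density `5/4`, applies.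
-/

namespace Pool.Agent.Lib.MP_d31508_co.Shr

open Finset Classical
open Pool.Agent.Lib.MP_d31508_co.Asy (dg Cl D HasP f)
open Pool.Agent.Lib.MP_d31508_co.Sharp (Ker Hang)
open Pool.Agent.Lib.MP_d31508_co.Shq (Flex)

/-- module CutM: like `Shq.StCut`, for density `(q+1)/q` and a set `M` of at least `q + 1`
vertices which spans at most `|M| - 1` edges and has at most two edges to the rest of `A ∪ Q` -/
def StCutM : Prop := ∀ (V : Type) [Fintype V] (G : SimpleGraph V) (A R Q M : Finset V)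
  (q ρ : ℕ), 1 ≤ q → Disjoint A R → Ker G (q + 1) q A R → Q ⊆ R → Hang G A Q → M ⊆ Q →
  q + 1 ≤ M.card → D G M + 2 ≤ 2 * M.card → ∑ x ∈ M, dg G ((A ∪ Q) \ M) x ≤ 2 →
  Fintype.card V * q ^ ρ < (q + 1) ^ ρ →
  ∃ E : Finset V, E ⊆ R \ Q ∧ E.card ≤ 2 * ρ ∧ Hang G A (Q ∪ E) ∧ (∃ x ∈ M, 1 ≤ dg G E x) ∧
    ∃ x x' : V, ∀ y ∈ E, y ≠ x → y ≠ x' → ∀ z ∈ Q \ M, ¬ G.Adj y z

/-- module PieceG -/
def StPieceG : Prop := ∀ (V : Type) [Fintype V] (G : SimpleGraph V) (A R Q : Finset V)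
  (t : ℕ → V) (l q ρ : ℕ), 1 ≤ q → Disjoint A R → Ker G (q + 1) q A R → Cl G A → Q ⊆ R →
  Hang G A Q → 2 * q + 4 ≤ l → (∀ i < l, t i ∈ Q ∧ dg G (A ∪ Q) (t i) = 2) →
  (∀ i < l, ∀ j < l, t i = t j → i = j) → (∀ i, i + 1 < l → G.Adj (t i) (t (i + 1))) →
  (∀ x ∈ R \ Q, ∀ i < l, ∀ j < l, G.Adj x (t i) → G.Adj x (t j) → i = j) →
  Fintype.card V * q ^ ρ < (q + 1) ^ ρ →
  ∃ B T : Finset V, A ⊆ B ∧ B ⊆ A ∪ R ∧ T ⊆ R ∧ Disjoint B T ∧ Cl G B ∧ Hang G B T ∧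
    B.card + T.card ≤ A.card + Q.card + 4 * ρ ∧ l ≤ 5 * T.card + (2 * q + 6) ∧ T.card ≤ l

/-- module SuspG -/
def StSuspG : Prop := ∀ (V : Type) [Fintype V] (G : SimpleGraph V) (A R Ah : Finset V)
  (w q ρ : ℕ), 1 ≤ q → Disjoint A R → Ker G (q + 1) q A R → A ⊆ Ah → (∃ v ∈ R, v ∉ Ah) →
  Fintype.card V * q ^ ρ < (q + 1) ^ ρ →
  (∀ X : Finset V, X ⊆ R \ Ah → X.Nonempty → Hang G Ah X → w + 2 ≤ X.card) →
  ∃ (Q : Finset V) (t : ℕ → V), Q ⊆ R ∧ Q.card ≤ 4 * ρ + 3 ∧ Hang G A Q ∧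
    (∀ i < w / 2, t i ∈ Q ∧ dg G (A ∪ Q) (t i) = 2) ∧
    (∀ i < w / 2, ∀ j < w / 2, t i = t j → i = j) ∧
    (∀ i, i + 1 < w / 2 → G.Adj (t i) (t (i + 1))) ∧
    (∀ x ∈ R \ Q, ∀ i < w / 2, ∀ j < w / 2, G.Adj x (t i) → G.Adj x (t j) → i = j)

/-- module IncG (density `5/4`) -/
def StIncG : Prop := ∀ (V : Type) [Fintype V] (G : SimpleGraph V) (A R Y : Finset V)
  (w m ρ : ℕ), Disjoint A R → Disjoint A Y → Disjoint R Y → Ker G 5 4 A R → Cl G A →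
  Flex G A Y w → 40 ≤ w → A.card ≤ m → m < R.card → Fintype.card V * 4 ^ ρ < 5 ^ ρ →
  (∃ S : Finset V, S.card = m ∧ Cl G S) ∨
  (w < 4 * ρ + 2 ∧ ∃ B T : Finset V, A ⊆ B ∧ B ⊆ A ∪ R ∧ T ⊆ R ∧ Disjoint B T ∧ Cl G B ∧
    Hang G B T ∧ B.card + T.card ≤ A.card + (8 * ρ + 7) ∧ w ≤ 10 * T.card + 29 ∧
    T.card ≤ w + 1)

/-- module SelL: `L` removable vertices of small degree; only local hypotheses -/
def StSelL : Prop := ∀ (V : Type) [Fintype V] (G : SimpleGraph V) (W : Finset V) (L : ℕ),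
  (∀ u ∈ W, 2 ≤ dg G W u) → (∀ u ∈ W, ∀ v ∈ W, G.Adj u v → 5 ≤ dg G W u + dg G W v) →
  D G W ≤ 6 * W.card → 6 * (L * (72 * (L + 2) + 1)) < W.card →
  ∃ Y : Finset V, Y ⊆ W ∧ Y.card = L ∧ (∀ u ∈ W, 2 ≤ dg G (W \ Y) u) ∧
    ∑ y ∈ Y, dg G W y ≤ 72 * L

/-- module FlexG: like `Shp.StFlexB`, for density `7/5` -/
def StFlexG : Prop := ∀ (V : Type) [Fintype V] (G : SimpleGraph V) (W Y : Finset V) (r : ℕ),
  Ker G 7 5 ∅ W → Y ⊆ W → (∀ u ∈ W, 2 ≤ dg G (W \ Y) u) → Fintype.card V * 4 ^ r < 5 ^ r →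
  ∃ B : Finset V, B ⊆ W \ Y ∧ Cl G B ∧ (∀ y ∈ Y, 2 ≤ dg G B y) ∧
    B.card ≤ 7 * (∑ y ∈ Y, dg G W y) +
      (14 * (∑ y ∈ Y, dg G W y) + 2 * Y.card) * (4 * r + 3)

/-- module BigG: closed sets of size `m` in a large kernel of density `7/5` without adjacent
vertices of degree two -/
def StBigG : Prop := ∀ (V : Type) [Fintype V] (G : SimpleGraph V) (W : Finset V)
  (m ρ : ℕ), 1 ≤ ρ → Ker G 7 5 ∅ W →
  (∀ u ∈ W, ∀ v ∈ W, G.Adj u v → 5 ≤ dg G W u + dg G W v) → D G W ≤ 6 * W.card →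
  Fintype.card V * 4 ^ ρ < 5 ^ ρ → 10000000 * ρ * (Nat.log 2 ρ + 1) ≤ m →
  1000 * m ^ 2 ≤ W.card → ∃ S : Finset V, S.card = m ∧ Cl G S

/-- module Ext: the extension of the exact upper bound to large `n` -/
def StExt : Prop := ∀ (V : Type) [Fintype V] (G : SimpleGraph V) (m c ρ : ℕ), 2 ≤ m → c ≤ 3 →
  1 ≤ ρ → (∀ S : Finset V, S.card = m → ¬ Cl G S) →
  (∀ W : Finset V, m ^ 20 ≤ W.card → W.card ≤ m ^ 60 → D G W + c < 3 * W.card) →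
  Fintype.card V * 4 ^ ρ < 5 ^ ρ → 10000000 * ρ * (Nat.log 2 ρ + 1) ≤ m →
  ∀ W : Finset V, m ^ 20 ≤ W.card → D G W + c < 3 * W.card

/-- the final statement -/
def StExact : Prop := ∃ C : ℝ, 0 < C ∧ ∀ (δ : ℝ) (n k : ℕ), 0 < δ → δ ≤ 1 → 2 ≤ k →
  (1 + δ) * (k : ℝ) ^ 2 ≤ n → C * Real.log k ^ 70 ≤ δ ^ 78 * k →
  C * (Real.log n * Real.log k) ≤ k →
  (Even k → f n k + 3 * (n - 1) / 2 = n.choose 2) ∧
  (Odd k → f n k + (3 * n / 2 - 2) = n.choose 2)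

end Pool.Agent.Lib.MP_d31508_co.Shr
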